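import Pool.Agent.H552Res.Main

set_option autoImplicit false

namespace Pool.Agent.H552Res

open Filter

/-- `n` is a nonzero `k`-th power residue modulo `p` -/
def IsRes (k p n : ℕ) : Prop := ¬ p ∣ n ∧ ∃ x : ℤ, (n : ℤ) ≡ x ^ k [ZMOD p]

/-- the least positive `a` such that `a, a + 1, ..., a + m - 1` are nonzero `k`-th power residues
modulo `p`, and `⊤` if there is none -/
noncomputable def r (k m p : ℕ) : ℕ∞ :=
  ⨅ (a : ℕ) (_ : 0 < a ∧ ∀ i < m, IsRes k p (a + i)), (a : ℕ∞)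

/-- `Λ(k, m)`, the upper limit of `r k m p` over the primes `p` -/
noncomputable def Lam (k m : ℕ) : ℕ∞ := limsup (fun p => r k m p) (atTop ⊓ 𝓟 {p : ℕ | p.Prime})

theorem res_pow {k l p n : ℕ} (h : l ∣ k) (hn : IsRes k p n) : ∃ y : ZMod p, y ^ l = (n : ZMod p) := by
  obtain ⟨j, rfl⟩ := h
  obtain ⟨_, x, hx⟩ := hn
  refine ⟨(x : ZMod p) ^ j, ?_⟩
  have h1 := (ZMod.intCast_eq_intCast_iff _ _ _).2 hx
  push_cast at h1
  rw [h1, ← pow_mul, mul_comm]

theorem lam_ge (k m l c X : ℕ) (hl : l.Prime) (hl2 : l ≠ 2) (h : l ∣ k) (hX : 2 ≤ X)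
    (hc : ∀ a, 0 < a → a < c → (∀ i < m, a + i ≤ X) ∧ ¬ ∀ i < m, l ∣ Om (a + i)) :
    (c : ℕ∞) ≤ Lam k m := by
  refine le_limsup_of_frequently_le ?_ (by isBoundedDefault)
  intro hev
  rw [eventually_inf_principal, eventually_atTop] at hev
  obtain ⟨B, hB⟩ := hev
  obtain ⟨p, hp1, hp2, hp3⟩ := good l hl hl2 X B hX
  refine hB p hp1.le hp2 ?_
  unfold r
  refine le_iInf₂ fun a ha => ?_
  by_contra hlt
  have hac : a < c := by
    rw [not_le] at hlt
    exact_mod_cast hlt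
  obtain ⟨h1, h2⟩ := hc a ha.1 hac
  apply h2
  intro i hi
  exact hp3 (a + i) (by omega) (h1 i hi) (res_pow h (ha.2 i hi))

end Pool.Agent.H552Res
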