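import Mathlib

/-!
# Radicals on which the Galois group acts commutatively
-/

set_option autoImplicit false

namespace Pool.Agent.H552Res

open NumberField Polynomial IntermediateField

section
variable {L : Type} [Field L] [NumberField L] [IsGalois ℚ L]

omit [NumberField L] in
theorem rat_of_fixed [CharZero L] [Algebra ℚ L] [FiniteDimensional ℚ L] [IsGalois ℚ L] (x : L)
    (h : ∀ σ : Gal(L/ℚ), σ x = x) : ∃ r : ℚ, algebraMap ℚ L r = x := by
  have h1 : x ∈ (⊥ : IntermediateField ℚ L) := (IsGalois.mem_bot_iff_fixed x).2 h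
  exact IntermediateField.mem_bot.1 h1

theorem pmod {F : Type*} [Field F] {l : ℕ} (hl : l ≠ 0) {ω : F} (hω : IsPrimitiveRoot ω l) (a b : ℕ) :
    ω ^ a = ω ^ b ↔ (a : ZMod l) = (b : ZMod l) := by
  obtain ⟨u, hu⟩ := hω.isUnit hl
  have h4 : IsPrimitiveRoot u l := IsPrimitiveRoot.coe_units_iff.1 (by rw [hu]; exact hω)
  rw [ZMod.natCast_eq_natCast_iff, h4.eq_orderOf, ← pow_eq_pow_iff_modEq, ← hu]
  constructor
  · intro h
    exact Units.ext (by push_cast; exact h)
  · intro h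
    have := congrArg Units.val h
    push_cast at this
    exact this

theorem no_odd {l : ℕ} (hl : l.Prime) (hl2 : l ≠ 2) {ω : L} (hω : IsPrimitiveRoot ω l) {n : ℕ} (hn : n ≠ 0)
    (hnl : ∀ b : ℚ, b ^ l ≠ (n : ℚ)) {x : L} (hx : x ^ l = (n : L))
    (hcomm : ∀ σ τ : Gal(L/ℚ), σ (τ x) = τ (σ x)) : False := by
  have hfl : Fact l.Prime := ⟨hl⟩
  have : NeZero l := ⟨hl.ne_zero⟩
  have hodd : Odd l := hl.odd_of_ne_two hl2
  have hx0 : x ≠ 0 := by
    rintro rfl
    rw [zero_pow hl.ne_zero] at hx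
    exact hn (by exact_mod_cast hx.symm)
  have hu : ∀ σ : Gal(L/ℚ), ∃ u : ℕ, σ ω = ω ^ u := by
    intro σ
    obtain ⟨u, _, hu⟩ := hω.eq_pow_of_pow_eq_one (ξ := σ ω) (by rw [← map_pow, hω.pow_eq_one, map_one])
    exact ⟨u, hu.symm⟩
  have hb : ∀ σ : Gal(L/ℚ), ∃ b : ℕ, σ x = ω ^ b * x := by
    intro σ
    obtain ⟨b, _, hb⟩ := hω.eq_pow_of_pow_eq_one (ξ := σ x / x) (by
      rw [div_pow, ← map_pow, hx, map_natCast, div_self]
      exact_mod_cast hn)
    exact ⟨b, by rw [hb, div_mul_cancel₀ _ hx0]⟩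
  choose u hu using hu
  choose b hb using hb
  obtain ⟨τ, hτ⟩ : ∃ τ : Gal(L/ℚ), (u τ : ZMod l) ≠ 1 := by
    by_contra hcon
    push Not at hcon
    obtain ⟨r, hr⟩ := rat_of_fixed ω (fun σ => by
      have h1 := (pmod hl.ne_zero hω (u σ) 1).2 (by rw [hcon σ]; simp)
      rw [hu σ, h1, pow_one])
    have h2 : r ^ l = 1 := by
      have h3 : algebraMap ℚ L (r ^ l) = algebraMap ℚ L 1 := by
        rw [map_pow, hr, hω.pow_eq_one, map_one]
      exact (algebraMap ℚ L).injective h3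
    have h4 : r = 1 := by
      have : r ^ l = 1 ^ l := by rw [h2, one_pow]
      exact hodd.strictMono_pow.injective this
    rw [h4, map_one] at hr
    rw [← hr] at hω
    exact hl.one_lt.ne' (hω.unique IsPrimitiveRoot.one)
  have hrel : ∀ ρ : Gal(L/ℚ), ((u τ : ZMod l) - 1) * b ρ = ((u ρ : ZMod l) - 1) * b τ := by
    intro ρ
    have h1 := hcomm τ ρ
    rw [hb ρ, hb τ, map_mul, map_mul, map_pow, map_pow, hu τ, hu ρ, hb τ, hb ρ, ← mul_assoc, ← mul_assoc,
      ← pow_mul, ← pow_mul, ← pow_add, ← pow_add] at h1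
    have h2 := (pmod hl.ne_zero hω _ _).1 (mul_right_cancel₀ hx0 h1)
    push_cast at h2
    linear_combination h2
  have hne : ((u τ : ZMod l) - 1) ≠ 0 := sub_ne_zero.2 hτ
  set c : ZMod l := (b τ : ZMod l) / ((u τ : ZMod l) - 1) with hc
  have hbc : ∀ ρ : Gal(L/ℚ), (b ρ : ZMod l) = ((u ρ : ZMod l) - 1) * c := by
    intro ρ
    have h1 := hrel ρ
    rw [hc]
    field_simp
    linear_combination h1
  have hfix : ∀ ρ : Gal(L/ℚ), ρ (ω ^ (-c).val * x) = ω ^ (-c).val * x := by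
    intro ρ
    rw [map_mul, map_pow, hu ρ, hb ρ, ← mul_assoc, ← pow_mul, ← pow_add]
    congr 1
    rw [pmod hl.ne_zero hω]
    push_cast
    rw [ZMod.natCast_zmod_val, hbc ρ]
    ring
  obtain ⟨r, hr⟩ := rat_of_fixed _ hfix
  apply hnl r
  have h3 : algebraMap ℚ L (r ^ l) = algebraMap ℚ L n := by
    rw [map_pow, hr, mul_pow, ← pow_mul, mul_comm _ l, pow_mul, hω.pow_eq_one, one_pow, one_mul, hx, map_natCast]
  exact (algebraMap ℚ L).injective h3

theorem no_four {i : L} (hi : i ^ 2 = -1) {n : ℕ} (hn : n ≠ 0)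
    (hn2 : ∀ b : ℚ, b ^ 2 ≠ (n : ℚ)) {x : L} (hx : x ^ 4 = (n : L))
    (hcomm : ∀ σ τ : Gal(L/ℚ), σ (τ x) = τ (σ x)) : False := by
  have hx0 : x ≠ 0 := by
    rintro rfl
    rw [zero_pow (by norm_num)] at hx
    exact hn (by exact_mod_cast hx.symm)
  have hi0 : i ≠ 0 := by
    rintro rfl
    norm_num at hi
  have hii : i ≠ -i := by
    intro h
    have : (2 : L) * i = 0 := by linear_combination h
    rcases mul_eq_zero.1 this with h | h
    · norm_num at h
    · exact hi0 h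
  have hσi : ∀ σ : Gal(L/ℚ), σ i = i ∨ σ i = -i := by
    intro σ
    have h1 : σ i ^ 2 = -1 := by rw [← map_pow, hi, map_neg, map_one]
    have h2 : (σ i - i) * (σ i + i) = 0 := by linear_combination h1 - hi
    rcases mul_eq_zero.1 h2 with h | h
    · left; exact sub_eq_zero.1 h
    · right; exact eq_neg_of_add_eq_zero_left h
  have hroot : ∀ y : L, y ^ 4 = 1 → y ^ 2 = 1 ∨ (y = i ∨ y = -i) := by
    intro y hy
    have h1 : (y ^ 2 - 1) * ((y - i) * (y + i)) = 0 := by linear_combination hy - (y^2 - 1) * hi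
    rcases mul_eq_zero.1 h1 with h | h
    · left; exact sub_eq_zero.1 h
    · right
      rcases mul_eq_zero.1 h with h | h
      · left; exact sub_eq_zero.1 h
      · right; exact eq_neg_of_add_eq_zero_left h
  have hroot2 : ∀ y : L, y ^ 2 = 1 → y = 1 ∨ y = -1 := by
    intro y hy
    have h1 : (y - 1) * (y + 1) = 0 := by linear_combination hy
    rcases mul_eq_zero.1 h1 with h | h
    · left; exact sub_eq_zero.1 h
    · right; exact eq_neg_of_add_eq_zero_left h
  obtain ⟨τ, hτ⟩ : ∃ τ : Gal(L/ℚ), τ i = -i := by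
    by_contra hcon
    push Not at hcon
    obtain ⟨r, hr⟩ := rat_of_fixed i (fun σ => (hσi σ).resolve_right (hcon σ))
    have h3 : algebraMap ℚ L (r ^ 2) = algebraMap ℚ L (-1) := by
      rw [map_pow, hr, hi, map_neg, map_one]
    have h4 : r ^ 2 = -1 := (algebraMap ℚ L).injective h3
    nlinarith [sq_nonneg r]
  have hz : ∀ σ : Gal(L/ℚ), (σ x / x) ^ 4 = 1 ∧ σ x = (σ x / x) * x := by
    intro σ
    refine ⟨?_, (div_mul_cancel₀ _ hx0).symm⟩
    rw [div_pow, ← map_pow, hx, map_natCast, div_self]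
    exact_mod_cast hn
  have hfixroot : ∀ ρ : Gal(L/ℚ), ρ i = i → ∀ y : L, y ^ 4 = 1 → ρ y = y := by
    intro ρ hρ y hy
    rcases hroot y hy with h | h | h
    · rcases hroot2 y h with rfl | rfl
      · rw [map_one]
      · rw [map_neg, map_one]
    · rw [h, hρ]
    · rw [h, map_neg, hρ]
  have hcase : ∀ ρ : Gal(L/ℚ), ρ i = i → ρ (x ^ 2) = x ^ 2 := by
    intro ρ hρ
    obtain ⟨hy4, hy⟩ := hz ρ
    obtain ⟨hz4, hzx⟩ := hz τ
    set y := ρ x / x with hydef
    set z := τ x / x with hzdef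
    have h1 := hcomm τ ρ
    rw [hy, hzx, map_mul, map_mul, hy, hzx, hfixroot ρ hρ z hz4] at h1
    have hz0 : z ≠ 0 := by
      intro h
      rw [h, zero_pow (by norm_num)] at hz4
      exact zero_ne_one hz4
    have h2 : τ y = y := by
      have h3 : τ y * (z * x) = y * (z * x) := by linear_combination h1
      exact mul_right_cancel₀ (mul_ne_zero hz0 hx0) h3
    have h4 : y ^ 2 = 1 := by
      rcases hroot y hy4 with h | h | h
      · exact h
      · exfalso
        rw [h, hτ] at h2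
        exact hii h2.symm
      · exfalso
        rw [h, map_neg, hτ, neg_neg] at h2
        exact hii h2
    rw [map_pow, hy, mul_pow, h4, one_mul]
  have hmulτ : ∀ ρ : Gal(L/ℚ), ρ i = -i → (ρ * τ) i = i := by
    intro ρ hρ
    rw [AlgEquiv.mul_apply, hτ, map_neg, hρ, neg_neg]
  obtain ⟨hz4, hzx⟩ := hz τ
  have hz22 : (τ x / x) ^ 2 = 1 ∨ (τ x / x) ^ 2 = -1 := by
    apply hroot2
    rw [← pow_mul]
    exact hz4
  rcases hz22 with h | h
  · have hτ2 : τ (x ^ 2) = x ^ 2 := by rw [map_pow, hzx, mul_pow, h, one_mul]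
    obtain ⟨r, hr⟩ := rat_of_fixed (x ^ 2) (fun ρ => by
      rcases hσi ρ with hρ | hρ
      · exact hcase ρ hρ
      · have h1 := hcase (ρ * τ) (hmulτ ρ hρ)
        rw [AlgEquiv.mul_apply, hτ2] at h1
        exact h1)
    apply hn2 r
    have h3 : algebraMap ℚ L (r ^ 2) = algebraMap ℚ L n := by
      rw [map_pow, hr, ← pow_mul, hx, map_natCast]
    exact (algebraMap ℚ L).injective h3
  · have hτ2 : τ (x ^ 2) = -x ^ 2 := by rw [map_pow, hzx, mul_pow, h]; ring
    obtain ⟨r, hr⟩ := rat_of_fixed (i * x ^ 2) (fun ρ => by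
      rcases hσi ρ with hρ | hρ
      · rw [map_mul, hρ, hcase ρ hρ]
      · have h1 := hcase (ρ * τ) (hmulτ ρ hρ)
        rw [AlgEquiv.mul_apply, hτ2, map_neg] at h1
        rw [map_mul, hρ]
        linear_combination i * h1)
    have h3 : algebraMap ℚ L (r ^ 2) = algebraMap ℚ L (-n) := by
      rw [map_pow, hr, mul_pow, hi, ← pow_mul, hx, map_neg, map_natCast]
      ring
    have h4 : r ^ 2 = -(n : ℚ) := (algebraMap ℚ L).injective h3
    have h5 : (0 : ℚ) < n := by exact_mod_cast Nat.pos_of_ne_zero hn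
    nlinarith [sq_nonneg r]

end

end Pool.Agent.H552Res
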