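import Pool.Agent.H552Res.K4
import Pool.Agent.H552Res.K5

/-!
# Kummer theory over `ℚ(ζ_k)` for the `k`-th roots of the primes up to `X`, `k` even
-/

set_option autoImplicit false

namespace Pool.Agent.H552Res

open NumberField Polynomial IntermediateField Pool.Agent.Q202.RT Pool.Agent.W401.Cheb

section
variable {L : Type} [Field L] [NumberField L] [IsGalois ℚ L] {m : ℕ} {ζ η : L}

/-- the elements of the Galois group over `ℚ(ζ)` which multiply the `α q` by powers of `η = ζ ^ 2` -/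
def Simg2 (hm : m ≠ 0) (hη : IsPrimitiveRoot η m) (hζη : η = ζ ^ 2) {ι : Type} (α : ι → L) :
    AddSubgroup (ι → ZMod m) where
  carrier := {v | ∃ σ : Gal(L/ℚ), σ ζ = ζ ∧ ∀ q, σ (α q) = η ^ (v q).val * α q}
  zero_mem' := ⟨1, rfl, fun q => by simp⟩
  add_mem' := by
    rintro v w ⟨σ, hσ, hσ'⟩ ⟨τ, hτ, hτ'⟩
    have hση : σ η = η := by rw [hζη, map_pow, hσ]
    refine ⟨σ * τ, by rw [AlgEquiv.mul_apply, hτ, hσ], fun q => ?_⟩
    rw [AlgEquiv.mul_apply, hτ', map_mul, map_pow, hση, hσ', Pi.add_apply, zadd hη hm]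
    ring
  neg_mem' := by
    rintro v ⟨σ, hσ, hσ'⟩
    have h1 : ∀ x, σ⁻¹ (σ x) = x := fun x => by
      rw [← AlgEquiv.mul_apply, inv_mul_cancel, AlgEquiv.one_apply]
    have h2 : σ⁻¹ ζ = ζ := by
      conv_lhs => rw [← hσ]
      exact h1 ζ
    have h2η : σ⁻¹ η = η := by rw [hζη, map_pow, h2]
    refine ⟨σ⁻¹, h2, fun q => ?_⟩
    have h3 : α q = η ^ (v q).val * σ⁻¹ (α q) := by
      have h4 := h1 (α q)
      rw [hσ', map_mul, map_pow, h2η] at h4
      exact h4.symm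
    have h5 : η ^ ((-v) q).val * η ^ (v q).val = 1 := by
      rw [← zadd hη hm, Pi.neg_apply, neg_add_cancel]
      simp
    calc σ⁻¹ (α q) = (η ^ ((-v) q).val * η ^ (v q).val) * σ⁻¹ (α q) := by rw [h5, one_mul]
      _ = η ^ ((-v) q).val * (η ^ (v q).val * σ⁻¹ (α q)) := by rw [mul_assoc]
      _ = η ^ ((-v) q).val * α q := by rw [← h3]

theorem surj2 (hm : m ≠ 0) (hζ : IsPrimitiveRoot ζ (2 * m)) (hη : IsPrimitiveRoot η m) (hζη : η = ζ ^ 2) {X : ℕ}
    (α : Ix X → L) (hα : ∀ q, α q ^ (2 * m) = ((q : ℕ) : L)) (v : Ix X → ZMod m) : v ∈ Simg2 hm hη hζη α := by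
  classical
  have : NeZero m := ⟨hm⟩
  have : NeZero (2 * m) := ⟨by omega⟩
  refine nak hm _ (fun l hl hlm e he => ?_) v
  by_contra hne
  have hfl : Fact l.Prime := ⟨hl⟩
  have : NeZero l := ⟨hl.ne_zero⟩
  have hα0 : ∀ q, α q ≠ 0 := by
    intro q h
    have h1 := hα q
    rw [h, zero_pow (by omega)] at h1
    exact (Ix_prime q).ne_zero (by exact_mod_cast h1.symm)
  obtain ⟨j, hj⟩ := hlm
  set x : L := ∏ q, α q ^ (j * (e q).val) with hx
  have hfix : ∀ σ : Gal(L/ℚ), σ ζ = ζ → (∀ q, σ (α q ^ m) = α q ^ m) → σ x = x := by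
    intro σ hσ hσm
    have h1 : ∀ q, ∃ c : ℕ, c < m ∧ σ (α q) = η ^ c * α q := by
      intro q
      have h2 : (σ (α q) / α q) ^ m = 1 := by
        rw [div_pow, ← map_pow, hσm, div_self (pow_ne_zero _ (hα0 q))]
      obtain ⟨i, hi, hi2⟩ := hη.eq_pow_of_pow_eq_one h2
      refine ⟨i, hi, ?_⟩
      rw [hi2, div_mul_cancel₀ _ (hα0 q)]
    choose c hc hcσ using h1
    have h2 : (fun q => (c q : ZMod m)) ∈ Simg2 hm hη hζη α := by
      refine ⟨σ, hσ, fun q => ?_⟩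
      rw [ZMod.val_natCast, Nat.mod_eq_of_lt (hc q)]
      exact hcσ q
    have h3 := he _ h2
    have h4 : l ∣ ∑ q, c q * (e q).val := by
      rw [← ZMod.natCast_eq_zero_iff]
      push_cast
      rw [← h3]
      apply Finset.sum_congr rfl
      intro q _
      rw [map_natCast, ZMod.natCast_zmod_val, mul_comm]
    rw [hx, map_prod]
    have h5 : ∀ q, σ (α q ^ (j * (e q).val)) = η ^ (j * (c q * (e q).val)) * α q ^ (j * (e q).val) := by
      intro q
      rw [map_pow, hcσ, mul_pow, ← pow_mul]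
      congr 2
      ring
    rw [Finset.prod_congr rfl (fun q _ => h5 q), Finset.prod_mul_distrib, Finset.prod_pow_eq_pow_sum,
      ← Finset.mul_sum]
    obtain ⟨t, ht⟩ := h4
    have h6 : j * ∑ q, c q * (e q).val = m * t := by rw [ht, hj]; ring
    rw [h6, pow_mul, hη.pow_eq_one, one_pow, one_mul]
  -- commutators fix `x`
  have hz : ∀ σ : Gal(L/ℚ), ∃ a : ℕ, σ ζ = ζ ^ a := by
    intro σ
    obtain ⟨u, _, hu⟩ := hζ.eq_pow_of_pow_eq_one (ξ := σ ζ) (by rw [← map_pow, hζ.pow_eq_one, map_one])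
    exact ⟨u, hu.symm⟩
  have hsq : ∀ (σ : Gal(L/ℚ)) (q : Ix X), σ (α q ^ m) = α q ^ m ∨ σ (α q ^ m) = -(α q ^ m) := by
    intro σ q
    have h1 : (α q ^ m) ^ 2 = ((q : ℕ) : L) := by rw [← pow_mul, mul_comm, hα]
    have h2 : σ (α q ^ m) ^ 2 = ((q : ℕ) : L) := by rw [← map_pow, h1, map_natCast]
    have h3 : (σ (α q ^ m) - α q ^ m) * (σ (α q ^ m) + α q ^ m) = 0 := by linear_combination h2 - h1
    rcases mul_eq_zero.1 h3 with h | h
    · left; exact sub_eq_zero.1 h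
    · right; exact eq_neg_of_add_eq_zero_left h
  have hcomm : ∀ σ τ : Gal(L/ℚ), σ (τ x) = τ (σ x) := by
    intro σ τ
    have hinv : ∀ (ρ : Gal(L/ℚ)) (y : L), ρ⁻¹ (ρ y) = y := fun ρ y => by
      rw [← AlgEquiv.mul_apply, inv_mul_cancel, AlgEquiv.one_apply]
    have h1 : ((τ * σ)⁻¹ * (σ * τ)) x = x := by
      apply hfix
      · have h2 : (σ * τ) ζ = (τ * σ) ζ := by
          obtain ⟨a, ha⟩ := hz σ
          obtain ⟨b, hb⟩ := hz τ
          rw [AlgEquiv.mul_apply, AlgEquiv.mul_apply, hb, ha, map_pow, map_pow, ha, hb, ← pow_mul, ← pow_mul,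
            mul_comm]
        rw [AlgEquiv.mul_apply, h2]
        exact hinv _ _
      · intro q
        have h2 : (σ * τ) (α q ^ m) = (τ * σ) (α q ^ m) := by
          rw [AlgEquiv.mul_apply, AlgEquiv.mul_apply]
          rcases hsq σ q with h | h <;> rcases hsq τ q with h' | h' <;> simp only [h, h', map_neg]
        rw [AlgEquiv.mul_apply, h2]
        exact hinv _ _
    have h2 := congrArg (τ * σ) h1
    rw [AlgEquiv.mul_apply (τ * σ)⁻¹ (σ * τ)] at h2
    have h3 : (τ * σ) ((τ * σ)⁻¹ ((σ * τ) x)) = (σ * τ) x := by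
      rw [← AlgEquiv.mul_apply (τ * σ) (τ * σ)⁻¹, mul_inv_cancel, AlgEquiv.one_apply]
    rw [h3, AlgEquiv.mul_apply, AlgEquiv.mul_apply] at h2
    exact h2
  have hx2l : (x ^ 2) ^ l = (Nc e : L) := by
    rw [← pow_mul, hx, ← Finset.prod_pow, Nc]
    push_cast
    apply Finset.prod_congr rfl
    intro q _
    rw [← hα q, ← pow_mul, ← pow_mul]
    congr 1
    rw [hj]
    ring
  by_cases hl2 : l = 2
  · subst hl2
    have hj0 : 0 < j := by
      rcases Nat.eq_zero_or_pos j with h | h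
      · rw [h] at hj; omega
      · exact h
    have hi : (ζ ^ j) ^ 2 = -1 := by
      have h4 : IsPrimitiveRoot (ζ ^ j) 4 := hζ.pow (by omega) (by rw [hj]; ring)
      have h5 : (ζ ^ j) ^ 2 ≠ 1 := h4.pow_ne_one_of_pos_of_lt (by norm_num) (by norm_num)
      have h6 : ((ζ ^ j) ^ 2 - 1) * ((ζ ^ j) ^ 2 + 1) = 0 := by linear_combination h4.pow_eq_one
      rcases mul_eq_zero.1 h6 with h | h
      · exact absurd (sub_eq_zero.1 h) h5
      · exact eq_neg_of_add_eq_zero_left h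
    refine no_four hi (Nc_ne e) (fun b => Nc_not_pow hl e hne b) (x := x) ?_ hcomm
    rw [← hx2l, ← pow_mul]
  · have hω : IsPrimitiveRoot (η ^ j) l := hη.pow (Nat.pos_of_ne_zero hm) (by rw [hj]; ring)
    refine no_odd hl hl2 hω (Nc_ne e) (fun b => Nc_not_pow hl e hne b) hx2l (fun σ τ => ?_)
    rw [map_pow, map_pow, hcomm σ τ, map_pow, map_pow]

end

/-- **Prescribed residues, even exponents.** For all `m ≥ 1` and all `X`, `B` there is a prime `p > B` such that all the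
`2m`-th power residues `a ≤ X` modulo `p` have a number of prime factors divisible by `m`. -/
theorem good2 (m : ℕ) (hm : m ≠ 0) (X B : ℕ) :
    ∃ p, B < p ∧ p.Prime ∧ ∀ a, 0 < a → a ≤ X → (∃ y : ZMod p, y ^ (2 * m) = (a : ZMod p)) → m ∣ Om a := by
  classical
  have hk : 2 * m ≠ 0 := by omega
  obtain ⟨L, i1, i2, i3, ζ, α, hζ, hα⟩ := exists_fldK (2 * m) hk (fun q : Ix X => (q : ℕ))
  have hη : IsPrimitiveRoot (ζ ^ 2) m := hζ.pow (by omega) rfl
  obtain ⟨σ, hσ1, hσ2⟩ := surj2 hm hζ hη rfl α hα (fun _ => (1 : ZMod m))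
  have hσ3 : ∀ q, σ (α q) = ζ ^ 2 * α q := by
    intro q
    rw [hσ2 q]
    congr 1
    rcases Nat.lt_or_ge 1 m with h | h
    · have : Fact (1 < m) := ⟨h⟩
      rw [ZMod.val_one, pow_one]
    · have h1 : m = 1 := by omega
      subst h1
      have h2 : ζ ^ 2 = 1 := by simpa using hη.pow_eq_one
      rw [h2, one_pow]
  obtain ⟨p, hpS, hpB⟩ := (infinite_frob L σ).exists_gt (max B (max X (2 * m)))
  obtain ⟨hp, hxp⟩ := hpS
  have hfp : Fact p.Prime := ⟨hp⟩
  have hpk : ¬ p ∣ 2 * m := fun h => by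
    have := Nat.le_of_dvd (Nat.pos_of_ne_zero hk) h
    omega
  obtain ⟨φ, hφ⟩ : ∃ φ : 𝓞 L →+* AlgebraicClosure (ZMod p), HasFrob p φ σ := by
    by_contra hno
    apply hxp
    unfold xp
    rw [dif_pos hp]
    have : IsEmpty {φ : 𝓞 L →+* AlgebraicClosure (ZMod p) // HasFrob p φ σ} := ⟨fun x => hno ⟨x.1, x.2⟩⟩
    exact Nat.card_of_isEmpty
  have hp1 : 2 * m ∣ p - 1 := by
    have h1 := frob_zeta hk hζ hpk φ hφ (m := 1) (by rw [pow_one]; exact hσ1)
    have h2 : ((p - 1 : ℕ) : ZMod (2 * m)) = 0 := by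
      rw [Nat.cast_sub hp.one_le, ← h1, sub_self]
    exact (ZMod.natCast_eq_zero_iff _ _).1 h2
  refine ⟨p, by omega, hp, fun a ha haX hy => ?_⟩
  have hpa : ¬ p ∣ a := fun h => by
    have := Nat.le_of_dvd ha h
    omega
  have hOm : Om a = ∑ r : Ix X, a.factorization r := by
    conv_lhs => rw [factor ha haX]
    exact Om_prod _ _ _ Ix_prime
  have hβ : (∏ q : Ix X, α q ^ (a.factorization q)) ^ (2 * m) = (a : L) := by
    conv_rhs => rw [factor ha haX]
    rw [← Finset.prod_pow]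
    push_cast
    apply Finset.prod_congr rfl
    intro q _
    rw [← hα q, ← pow_mul, ← pow_mul, mul_comm]
  have h := frobK (m := 2 * Om a) hk hζ hβ hpk hpa hp1 φ hφ ?_ hy
  · exact Nat.dvd_of_mul_dvd_mul_left two_pos h
  rw [map_prod, pow_mul, hOm, ← Finset.prod_pow_eq_pow_sum, ← Finset.prod_mul_distrib]
  apply Finset.prod_congr rfl
  intro q _
  rw [map_pow, hσ3, mul_pow]

end Pool.Agent.H552Res
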