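import Pool.Agent.H552Res.Fin
import Pool.Agent.H552Res.K6

set_option autoImplicit false

namespace Pool.Agent.H552Res

open Filter

theorem lam_ge' (k m d c X : ℕ)
    (hg : ∀ B, ∃ p, B < p ∧ p.Prime ∧ ∀ a, 0 < a → a ≤ X → (∃ y : ZMod p, y ^ k = (a : ZMod p)) → d ∣ Om a)
    (hc : ∀ a, 0 < a → a < c → (∀ i < m, a + i ≤ X) ∧ ¬ ∀ i < m, d ∣ Om (a + i)) :
    (c : ℕ∞) ≤ Lam k m := by
  refine le_limsup_of_frequently_le ?_ (by isBoundedDefault)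
  intro hev
  rw [eventually_inf_principal, eventually_atTop] at hev
  obtain ⟨B, hB⟩ := hev
  obtain ⟨p, hp1, hp2, hp3⟩ := hg B
  refine hB p hp1.le hp2 ?_
  unfold r
  refine le_iInf₂ fun a ha => ?_
  by_contra hlt
  have hac : a < c := by
    rw [not_le] at hlt
    exact_mod_cast hlt
  obtain ⟨h1, h2⟩ := hc a ha.1 hac
  apply h2
  intro i hi
  exact hp3 (a + i) (by omega) (h1 i hi) (res_pow dvd_rfl (ha.2 i hi))

theorem pair_ge (k d : ℕ) (hd : 2 ≤ d)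
    (hg : ∀ X B, ∃ p, B < p ∧ p.Prime ∧ ∀ a, 0 < a → a ≤ X → (∃ y : ZMod p, y ^ k = (a : ZMod p)) → d ∣ Om a) :
    ((3 ^ d - 1 : ℕ) : ℕ∞) ≤ Lam k 2 := by
  refine lam_ge' k 2 d _ (3 ^ d) (hg _) ?_
  intro a ha hac
  refine ⟨fun i hi => by omega, fun hall => ?_⟩
  have := pair_bound a d ha hd (hall 0 (by norm_num)) (hall 1 (by norm_num))
  omega

theorem triple_ge (k d : ℕ) (hd : 2 ≤ d)
    (hg : ∀ X B, ∃ p, B < p ∧ p.Prime ∧ ∀ a, 0 < a → a ≤ X → (∃ y : ZMod p, y ^ k = (a : ZMod p)) → d ∣ Om a) :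
    ((2 * 5 ^ (d - 1) - 2 : ℕ) : ℕ∞) ≤ Lam k 3 := by
  refine lam_ge' k 3 d _ (2 * 5 ^ (d - 1)) (hg _) ?_
  intro a ha hac
  refine ⟨fun i hi => by omega, fun hall => ?_⟩
  have := triple_bound a d ha hd (hall 0 (by norm_num)) (hall 1 (by norm_num))
    (hall 2 (by norm_num))
  omega

end Pool.Agent.H552Res
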