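import Mathlib

/-!
# Subgroups of `(ℤ/k)^ι` and linear functionals modulo the prime divisors of `k`
-/

set_option autoImplicit false

namespace Pool.Agent.H552Res

theorem nak_step {ι : Type*} [Fintype ι] [DecidableEq ι] {k : ℕ} (hk : k ≠ 0) (S : AddSubgroup (ι → ZMod k))
    {l : ℕ} (hl : l.Prime) (hlk : l ∣ k)
    (h : ∀ e : ι → ZMod l, (∀ s ∈ S, ∑ i, e i * (ZMod.castHom hlk (ZMod l) (s i)) = 0) → e = 0)
    (a : ι → ZMod k) : ∃ s ∈ S, ∃ b : ι → ZMod k, a = s + l • b := by
  classical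
  have : Fact l.Prime := ⟨hl⟩
  have : NeZero k := ⟨hk⟩
  let π : (ι → ZMod k) →+ (ι → ZMod l) := (ZMod.castHom hlk (ZMod l)).toAddMonoidHom.compLeft ι
  have hπ : ∀ v i, π v i = ZMod.castHom hlk (ZMod l) (v i) := fun v i => rfl
  let T : Submodule (ZMod l) (ι → ZMod l) := AddSubgroup.toZModSubmodule l (S.map π)
  have hT : T = ⊤ := by
    by_contra hne
    obtain ⟨f, hf, hle⟩ := Submodule.exists_le_ker_of_lt_top T (lt_top_iff_ne_top.2 hne)
    have hfe : ∀ v, f v = ∑ i, f (Pi.single i 1) * v i := by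
      intro v
      rw [LinearMap.pi_apply_eq_sum_univ f v]
      apply Finset.sum_congr rfl
      intro i _
      rw [smul_eq_mul, mul_comm]
      congr 2
      funext j
      simp [Pi.single_apply, eq_comm]
    have he := h (fun i => f (Pi.single i 1)) (by
      intro s hs
      have h1 : π s ∈ T := ⟨s, hs, rfl⟩
      have h2 : f (π s) = 0 := hle h1
      rw [hfe] at h2
      exact h2)
    apply hf
    ext v
    have : f (Pi.single v 1) = 0 := congrFun he v
    simpa using this
  have h1 : π a ∈ T := by rw [hT]; trivial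
  obtain ⟨s, hs, hsa⟩ := h1
  have h2 : ∀ i, ∃ b : ZMod k, a i - s i = l • b := by
    intro i
    have h3 : ZMod.castHom hlk (ZMod l) (a i - s i) = 0 := by
      rw [map_sub, sub_eq_zero]
      exact (congrFun hsa i).symm
    rw [← ZMod.natCast_zmod_val (a i - s i), map_natCast, ZMod.natCast_eq_zero_iff] at h3
    obtain ⟨j, hj⟩ := h3
    refine ⟨(j : ZMod k), ?_⟩
    rw [← ZMod.natCast_zmod_val (a i - s i), hj]
    push_cast
    rw [nsmul_eq_mul]
  choose b hb using h2
  refine ⟨s, hs, b, ?_⟩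
  funext i
  have := hb i
  rw [Pi.add_apply, Pi.smul_apply, ← this]
  ring

/-- a subgroup of `(ℤ/k)^ι` not in the kernel of a nonzero functional modulo a prime divisor of `k` is everything -/
theorem nak {ι : Type*} [Fintype ι] [DecidableEq ι] {k : ℕ} (hk : k ≠ 0) (S : AddSubgroup (ι → ZMod k))
    (h : ∀ l, l.Prime → ∀ hlk : l ∣ k, ∀ e : ι → ZMod l,
      (∀ s ∈ S, ∑ i, e i * (ZMod.castHom hlk (ZMod l) (s i)) = 0) → e = 0) (a : ι → ZMod k) : a ∈ S := by
  have key : ∀ d : ℕ, d ∣ k → ∀ a : ι → ZMod k, ∃ s ∈ S, ∃ b : ι → ZMod k, a = s + d • b := by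
    intro d
    induction d using induction_on_primes with
    | zero => intro h0; exact absurd (Nat.eq_zero_of_zero_dvd h0) hk
    | one => intro _ a; exact ⟨0, S.zero_mem, a, by simp⟩
    | prime_mul p d hp ih =>
      intro hd a
      obtain ⟨s, hs, b, rfl⟩ := ih ((Dvd.intro_left p rfl).trans hd) a
      obtain ⟨t, ht, c, rfl⟩ := nak_step hk S hp ((Dvd.intro d rfl).trans hd) (h p hp _) b
      refine ⟨s + d • t, S.add_mem hs (S.nsmul_mem ht d), c, ?_⟩
      rw [smul_add, ← mul_smul, mul_comm d p, add_assoc]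
  obtain ⟨s, hs, b, hb⟩ := key k dvd_rfl a
  have h0 : k • b = 0 := by
    funext i
    simp
  rw [hb, h0, add_zero]
  exact hs

end Pool.Agent.H552Res
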