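import Mathlib

/-!
# A number field containing the `k`-th roots of unity and `k`-th roots of given numbers
-/

set_option autoImplicit false

namespace Pool.Agent.H552Res

open NumberField Polynomial IntermediateField

theorem exists_fldK (k : ℕ) (hk : k ≠ 0) {ι : Type} [Fintype ι] (a : ι → ℕ) :
    ∃ (L : Type) (_ : Field L) (_ : NumberField L) (_ : IsGalois ℚ L) (ζ : L) (α : ι → L), IsPrimitiveRoot ζ k ∧
      ∀ i, α i ^ k = a i := by
  set f : ℚ[X] := (X ^ k - 1) * ∏ i, (X ^ k - C (a i : ℚ)) with hf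
  set Ω := AlgebraicClosure ℚ with hΩ
  have : NeZero ((k : ℕ) : Ω) := ⟨by exact_mod_cast hk⟩
  have : NeZero k := ⟨hk⟩
  set E : IntermediateField ℚ Ω := adjoin ℚ (f.rootSet Ω) with hE
  have hf0 : f ≠ 0 := by
    rw [hf]
    refine mul_ne_zero ?_ ?_
    · have := (monic_X_pow_sub_C (1 : ℚ) hk).ne_zero
      simpa using this
    · exact Finset.prod_ne_zero_iff.2 fun i _ => (monic_X_pow_sub_C (a i : ℚ) hk).ne_zero
  have hmem1 : ∀ x : Ω, x ^ k = 1 → x ∈ f.rootSet Ω := by
    intro x hx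
    rw [mem_rootSet, hf, map_mul, mul_eq_zero]
    refine ⟨hf0, Or.inl ?_⟩
    simp [hx]
  have hmem2 : ∀ (x : Ω) (i : ι), x ^ k = (a i : Ω) → x ∈ f.rootSet Ω := by
    intro x i hx
    rw [mem_rootSet, hf, map_mul, mul_eq_zero]
    refine ⟨hf0, Or.inr ?_⟩
    rw [map_prod]
    refine Finset.prod_eq_zero (Finset.mem_univ i) ?_
    simp [hx]
  obtain ⟨ζ, hζ⟩ := HasEnoughRootsOfUnity.exists_primitiveRoot Ω k
  have hex : ∀ i, ∃ α : Ω, α ^ k = (a i : Ω) := fun i =>
    IsAlgClosed.exists_pow_nat_eq (a i : Ω) (Nat.pos_of_ne_zero hk)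
  choose α hα using hex
  have hζE : ζ ∈ E := subset_adjoin ℚ _ (hmem1 ζ hζ.pow_eq_one)
  have hαE : ∀ i, α i ∈ E := fun i => subset_adjoin ℚ _ (hmem2 (α i) i (hα i))
  have hsp : IsSplittingField ℚ E f := adjoin_rootSet_isSplittingField (IsAlgClosed.splits _)
  have hfd : FiniteDimensional ℚ E := IsSplittingField.finiteDimensional E f
  have hnor : Normal ℚ E := Normal.of_isSplittingField f
  have hgal : IsGalois ℚ E := { }
  have hz : IsPrimitiveRoot (⟨ζ, hζE⟩ : E) k := by
    apply IsPrimitiveRoot.of_map_of_injective (f := E.val) (hf := E.val.injective)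
    exact hζ
  have ha' : ∀ i, (⟨α i, hαE i⟩ : E) ^ k = (a i : E) := fun i => Subtype.ext (by push_cast; exact hα i)
  have hchar : CharZero E := charZero_of_injective_algebraMap (algebraMap ℚ E).injective
  have hA : (E.algebra' : Algebra ℚ E) = DivisionRing.toRatAlgebra := Subsingleton.elim _ _
  have key : ∀ A : Algebra ℚ E, A = DivisionRing.toRatAlgebra → FiniteDimensional ℚ E → IsGalois ℚ E →
      ∃ (L : Type) (_ : Field L) (_ : NumberField L) (_ : IsGalois ℚ L) (ζ : L) (α : ι → L),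
        IsPrimitiveRoot ζ k ∧ ∀ i, α i ^ k = a i := by
    rintro A rfl h1 h2
    exact ⟨E, inferInstance, { to_charZero := hchar, to_finiteDimensional := h1 }, h2, _,
      fun i => ⟨α i, hαE i⟩, hz, ha'⟩
  exact key E.algebra' hA hfd hgal

end Pool.Agent.H552Res
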