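import Mathlib

namespace Pool.Agent.H552Res

/-- number of prime factors with multiplicity -/
def Om (m : ℕ) : ℕ := m.primeFactorsList.length

theorem pow_le_of_primes (m b : ℕ) (hm : m ≠ 0) (h : ∀ q, q.Prime → q ∣ m → b ≤ q) :
    b ^ Om m ≤ m := by
  have h1 := List.pow_card_le_prod m.primeFactorsList b (fun q hq =>
    h q (Nat.prime_of_mem_primeFactorsList hq) (Nat.dvd_of_mem_primeFactorsList hq))
  rwa [Nat.prod_primeFactorsList hm] at h1

theorem Om_pos {m : ℕ} (hm : 2 ≤ m) : 0 < Om m := by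
  rw [Om, List.length_pos_iff]
  intro h
  rw [Nat.primeFactorsList_eq_nil] at h
  omega

theorem Om_ge {m l : ℕ} (hm : 2 ≤ m) (h : l ∣ Om m) : l ≤ Om m := Nat.le_of_dvd (Om_pos hm) h

theorem Om_two : Om 2 = 1 := by
  simp [Om, Nat.primeFactorsList_prime Nat.prime_two]

theorem Om_mul {a b : ℕ} (ha : a ≠ 0) (hb : b ≠ 0) : Om (a * b) = Om a + Om b := by
  have := (Nat.perm_primeFactorsList_mul ha hb).length_eq
  rw [List.length_append] at this
  exact this

theorem odd_ge (m l : ℕ) (hm : 2 ≤ m) (hodd : ¬ 2 ∣ m) (h : l ∣ Om m) : 3 ^ l ≤ m := by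
  have h1 := pow_le_of_primes m 3 (by omega) (fun q hq hqm => by
    have := hq.two_le
    rcases Nat.lt_or_ge q 3 with h3 | h3
    · have : q = 2 := by omega
      subst this
      exact absurd hqm hodd
    · exact h3)
  exact (Nat.pow_le_pow_right (by norm_num) (Om_ge hm h)).trans h1

theorem cop_six (m : ℕ) (hm : m ≠ 0) (h2 : ¬ 2 ∣ m) (h3 : ¬ 3 ∣ m) : 5 ^ Om m ≤ m := by
  refine pow_le_of_primes m 5 hm (fun q hq hqm => ?_)
  by_contra hlt
  push Not at hlt
  have := hq.two_le
  interval_cases q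
  · exact h2 hqm
  · exact h3 hqm
  · revert hq; norm_num

theorem pair_bound (a l : ℕ) (ha : 0 < a) (hl : 2 ≤ l) (h0 : l ∣ Om a) (h1 : l ∣ Om (a+1)) :
    3 ^ l ≤ a + 1 := by
  rcases Nat.lt_or_ge a 2 with h | h
  · have : a = 1 := by omega
    subst this
    rw [Om_two] at h1
    have := Nat.le_of_dvd (by norm_num) h1
    omega
  · by_cases hodd : 2 ∣ a
    · exact odd_ge (a+1) l (by omega) (by omega) h1
    · exact (odd_ge a l h hodd h0).trans (by omega)

theorem triple_bound (a l : ℕ) (ha : 0 < a) (hl : 2 ≤ l) (h0 : l ∣ Om a) (h1 : l ∣ Om (a+1))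
    (h2 : l ∣ Om (a+2)) : 2 * 5 ^ (l-1) ≤ a + 2 := by
  rcases Nat.lt_or_ge a 2 with h | h
  · have : a = 1 := by omega
    subst this
    rw [Om_two] at h1
    have := Nat.le_of_dvd (by norm_num) h1
    omega
  · have h5 : 2 * 5 ^ (l-1) ≤ 5 ^ l := by
      obtain ⟨j, rfl⟩ : ∃ j, l = j + 1 := ⟨l - 1, by omega⟩
      rw [pow_succ, Nat.add_sub_cancel]; omega
    have c1 : ∀ m, 2 ≤ m → l ∣ Om m → ¬ 2 ∣ m → ¬ 3 ∣ m → 2 * 5 ^ (l-1) ≤ m := by
      intro m hm hlm e2 e3
      exact h5.trans ((Nat.pow_le_pow_right (by norm_num) (Om_ge hm hlm)).trans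
        (cop_six m (by omega) e2 e3))
    have c2 : ∀ m, 2 ≤ m → l ∣ Om m → m % 4 = 2 → ¬ 3 ∣ m → 2 * 5 ^ (l-1) ≤ m := by
      intro m hm hlm e2 e3
      obtain ⟨u, rfl⟩ : ∃ u, m = 2 * u := ⟨m / 2, by omega⟩
      have hu : u ≠ 0 := by omega
      have h6 := Om_mul (a := 2) (b := u) (by norm_num) hu
      rw [Om_two] at h6
      have h7 := Om_ge hm hlm
      have h8 := cop_six u hu (by omega) (by omega)
      have h9 : 5 ^ (l-1) ≤ 5 ^ Om u := Nat.pow_le_pow_right (by norm_num) (by omega)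
      omega
    by_cases hodd : 2 ∣ a
    · by_cases h3 : 3 ∣ a + 1
      · by_cases h4 : a % 4 = 2
        · exact (c2 a h h0 h4 (by omega)).trans (by omega)
        · exact c2 (a+2) (by omega) h2 (by omega) (by omega)
      · exact (c1 (a+1) (by omega) h1 (by omega) h3).trans (by omega)
    · by_cases h3 : 3 ∣ a
      · exact c1 (a+2) (by omega) h2 (by omega) (by omega)
      · exact (c1 a h h0 hodd h3).trans (by omega)

/-- discrete logarithm modulo `l` -/
theorem exists_log (p l : ℕ) (hp : p.Prime) (hl : l ≠ 0) (hlp : l ∣ p - 1) :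
    ∃ θ : ℕ → ZMod l, (∀ a b : ℕ, ¬ p ∣ a → ¬ p ∣ b → θ (a * b) = θ a + θ b) ∧
      (∀ a : ℕ, ¬ p ∣ a → ((∃ y : ZMod p, y ^ l = (a : ZMod p)) ↔ θ a = 0)) := by
  classical
  have : Fact p.Prime := ⟨hp⟩
  have hcard : Nat.card (ZMod p)ˣ = p - 1 := by
    rw [Nat.card_eq_fintype_card, ZMod.card_units]
  let e := zmodCyclicMulEquiv (G := (ZMod p)ˣ) inferInstance
  have hd : l ∣ Nat.card (ZMod p)ˣ := by rw [hcard]; exact hlp
  let ρ : (ZMod p)ˣ → ZMod l := fun u => ZMod.castHom hd (ZMod l) (Multiplicative.toAdd (e.symm u))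
  have hρ : ∀ u v, ρ (u * v) = ρ u + ρ v := by
    intro u v
    simp only [ρ, map_mul, toAdd_mul, map_add]
  have hker : ∀ u : (ZMod p)ˣ, (∃ y : (ZMod p)ˣ, y ^ l = u) ↔ ρ u = 0 := by
    intro u
    constructor
    · rintro ⟨y, rfl⟩
      have : ρ (y ^ l) = l * ρ y := by
        simp only [ρ, map_pow, toAdd_pow, nsmul_eq_mul, map_mul, map_natCast]
      rw [this]
      simp
    · intro h
      set t := Multiplicative.toAdd (e.symm u) with ht
      have : NeZero (Nat.card (ZMod p)ˣ) := ⟨by rw [hcard]; have := hp.two_le; omega⟩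
      have h1 : ((t.val : ℕ) : ZMod l) = 0 := by
        have h2 : ZMod.castHom hd (ZMod l) t = 0 := h
        rw [← ZMod.natCast_zmod_val t, map_natCast] at h2
        exact h2
      obtain ⟨j, hj⟩ := (ZMod.natCast_eq_zero_iff _ _).1 h1
      refine ⟨e (Multiplicative.ofAdd (j : ZMod _)), ?_⟩
      rw [← map_pow]
      apply e.symm.injective
      rw [MulEquiv.symm_apply_apply]
      apply Multiplicative.toAdd.injective
      rw [toAdd_pow, toAdd_ofAdd, ← ht, nsmul_eq_mul, ← ZMod.natCast_zmod_val t, hj]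
      push_cast
      ring
  let θ : ℕ → ZMod l := fun a => if h : (a : ZMod p) ≠ 0 then ρ (Units.mk0 _ h) else 0
  have hne : ∀ a : ℕ, ¬ p ∣ a → (a : ZMod p) ≠ 0 := by
    intro a ha h
    exact ha ((ZMod.natCast_eq_zero_iff _ _).1 h)
  refine ⟨θ, ?_, ?_⟩
  · intro a b ha hb
    have h1 := hne a ha
    have h2 := hne b hb
    have h3 : ((a * b : ℕ) : ZMod p) ≠ 0 := by
      push_cast
      exact mul_ne_zero h1 h2
    simp only [θ, dif_pos h1, dif_pos h2, dif_pos h3]
    rw [← hρ]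
    congr 1
    apply Units.ext
    simp
  · intro a ha
    have h1 := hne a ha
    simp only [θ, dif_pos h1]
    rw [← hker]
    constructor
    · rintro ⟨y, hy⟩
      have hy0 : y ≠ 0 := by
        rintro rfl
        rw [zero_pow hl] at hy
        exact h1 hy.symm
      refine ⟨Units.mk0 y hy0, ?_⟩
      apply Units.ext
      simp [hy]
    · rintro ⟨y, hy⟩
      refine ⟨y, ?_⟩
      have := congrArg Units.val hy
      simpa using this

/-- the counting identity -/
theorem count_id {ι : Type*} [Fintype ι] [DecidableEq ι] {l : ℕ} [hl : Fact l.Prime] (x c0 : ι → ZMod l)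
    (h0 : ∑ i, c0 i * x i = 0) (h1 : ∑ i, c0 i ≠ 0) :
    l * (Finset.univ.filter (fun c : ι → ZMod l => ∑ i, c i * x i = 0 ∧ ∑ i, c i = 0)).card =
      (Finset.univ.filter (fun c : ι → ZMod l => ∑ i, c i * x i = 0)).card := by
  classical
  have h2 : (Finset.univ ×ˢ (Finset.univ.filter
      (fun c : ι → ZMod l => ∑ i, c i * x i = 0 ∧ ∑ i, c i = 0)) : Finset (ZMod l × (ι → ZMod l))).card =
      (Finset.univ.filter (fun c : ι → ZMod l => ∑ i, c i * x i = 0)).card := by
    apply Finset.card_bij' (fun td _ => td.2 + td.1 • c0)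
      (fun c _ => ((∑ i, c i) / (∑ i, c0 i), c - ((∑ i, c i) / (∑ i, c0 i)) • c0))
    · rintro ⟨t, d⟩ htd
      simp only [Finset.mem_product, Finset.mem_filter, Finset.mem_univ, true_and] at htd ⊢
      simp only [Pi.add_apply, Pi.smul_apply, smul_eq_mul, add_mul, Finset.sum_add_distrib, htd.1,
        mul_assoc, ← Finset.mul_sum, h0]
      simp
    · intro c hc
      simp only [Finset.mem_product, Finset.mem_filter, Finset.mem_univ, true_and] at hc ⊢
      simp only [Pi.sub_apply, Pi.smul_apply, smul_eq_mul, sub_mul, Finset.sum_sub_distrib, hc,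
        mul_assoc, ← Finset.mul_sum, h0]
      refine ⟨by simp, ?_⟩
      rw [div_mul_cancel₀ _ h1, sub_self]
    · rintro ⟨t, d⟩ htd
      simp only [Finset.mem_product, Finset.mem_filter, Finset.mem_univ, true_and] at htd
      have h3 : (∑ i, (d + t • c0) i) / (∑ i, c0 i) = t := by
        simp only [Pi.add_apply, Pi.smul_apply, smul_eq_mul, Finset.sum_add_distrib, htd.2,
          ← Finset.mul_sum, zero_add]
        rw [mul_div_assoc, div_self h1, mul_one]
      simp only [h3]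
      simp
    · intro c hc
      simp
  rw [← h2, Finset.card_product, Finset.card_univ, ZMod.card]

end Pool.Agent.H552Res
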