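import Pool.Agent.Q202.RT.Main
import Pool.Agent.H552Res.Nt

set_option autoImplicit false

namespace Pool.Agent.H552Res

open Finset Filter Topology Pool.Agent.W401.Cheb Pool.Agent.Q202.RT

theorem theta_one {p l : ℕ} (hp : p.Prime) {θ : ℕ → ZMod l}
    (h : ∀ a b : ℕ, ¬ p ∣ a → ¬ p ∣ b → θ (a * b) = θ a + θ b) : θ 1 = 0 := by
  have h1 : ¬ p ∣ 1 := by
    intro h; have := Nat.le_of_dvd one_pos h; have := hp.two_le; omega
  have := h 1 1 h1 h1
  rw [one_mul] at this
  exact left_eq_add.1 this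

theorem theta_pow {p l : ℕ} (hp : p.Prime) {θ : ℕ → ZMod l}
    (h : ∀ a b : ℕ, ¬ p ∣ a → ¬ p ∣ b → θ (a * b) = θ a + θ b) (a : ℕ) (ha : ¬ p ∣ a) (n : ℕ) :
    θ (a ^ n) = n * θ a := by
  induction n with
  | zero => simp [theta_one hp h]
  | succ n ih =>
    rw [pow_succ, h _ _ (fun h => ha (hp.dvd_of_dvd_pow h)) ha, ih]
    push_cast
    ring

theorem theta_prod {p l : ℕ} (hp : p.Prime) {θ : ℕ → ZMod l}
    (h : ∀ a b : ℕ, ¬ p ∣ a → ¬ p ∣ b → θ (a * b) = θ a + θ b) {ι : Type*} (s : Finset ι)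
    (f : ι → ℕ) (e : ι → ℕ) (hf : ∀ i, ¬ p ∣ f i) :
    θ (∏ i ∈ s, f i ^ e i) = ∑ i ∈ s, (e i : ZMod l) * θ (f i) := by
  classical
  have hnd : ∀ s : Finset ι, ¬ p ∣ ∏ i ∈ s, f i ^ e i := by
    intro s hd
    obtain ⟨i, _, hi⟩ := (Prime.dvd_finsetProd_iff hp.prime _).1 hd
    exact hf i (hp.dvd_of_dvd_pow hi)
  induction s using Finset.induction_on with
  | empty => simp [theta_one hp h]
  | insert i s hi ih =>
    rw [Finset.prod_insert hi, Finset.sum_insert hi,
      h _ _ (fun h => hf i (hp.dvd_of_dvd_pow h)) (hnd s), theta_pow hp h _ (hf i), ih]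

theorem Om_one : Om 1 = 0 := by simp [Om]

theorem Om_prime {q : ℕ} (hq : q.Prime) : Om q = 1 := by simp [Om, Nat.primeFactorsList_prime hq]

theorem Om_pow {a : ℕ} (ha : a ≠ 0) (n : ℕ) : Om (a ^ n) = n * Om a := by
  induction n with
  | zero => simp [Om_one]
  | succ n ih => rw [pow_succ, Om_mul (pow_ne_zero _ ha) ha, ih]; ring

theorem Om_prod {ι : Type*} (s : Finset ι) (f e : ι → ℕ) (hf : ∀ i, (f i).Prime) :
    Om (∏ i ∈ s, f i ^ e i) = ∑ i ∈ s, e i := by
  classical
  induction s using Finset.induction_on with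
  | empty => simp [Om_one]
  | insert i s hi ih =>
    rw [Finset.prod_insert hi, Finset.sum_insert hi, Om_mul (pow_ne_zero _ (hf i).ne_zero)
      (Finset.prod_ne_zero_iff.2 fun j _ => pow_ne_zero _ (hf j).ne_zero), ih, Om_pow (hf i).ne_zero,
      Om_prime (hf i), mul_one]

/-- the primes up to `X` -/
abbrev Ix (X : ℕ) := {q : ℕ // q ∈ pr X}

theorem Ix_prime {X : ℕ} (q : Ix X) : (q : ℕ).Prime := (mem_pr.1 q.2).2

theorem factor {X a : ℕ} (ha : 0 < a) (haX : a ≤ X) :
    a = ∏ q : Ix X, (q : ℕ) ^ (a.factorization q) := by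
  have h1 := Nat.prod_factorization_pow_eq_self ha.ne'
  have h2 : ∏ q : Ix X, (q : ℕ) ^ (a.factorization q) = ∏ q ∈ pr X, q ^ (a.factorization q) :=
    Finset.prod_coe_sort (pr X) (fun q => q ^ (a.factorization q))
  rw [h2]
  conv_lhs => rw [← h1]
  rw [Finsupp.prod]
  apply Finset.prod_subset
  · intro q hq
    rw [Nat.support_factorization, Nat.mem_primeFactors] at hq
    exact mem_pr.2 ⟨(Nat.le_of_dvd ha hq.2.1).trans haX, hq.1⟩
  · intro q _ hq
    rw [Finsupp.notMem_support_iff] at hq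
    rw [hq, pow_zero]

/-- the number with exponents `c` -/
def Nc {X l : ℕ} (c : Ix X → ZMod l) : ℕ := ∏ q : Ix X, (q : ℕ) ^ (c q).val

theorem Nc_ne {X l : ℕ} (c : Ix X → ZMod l) : Nc c ≠ 0 :=
  Finset.prod_ne_zero_iff.2 fun q _ => pow_ne_zero _ (Ix_prime q).ne_zero

theorem Nc_val {X l : ℕ} [NeZero l] (c : Ix X → ZMod l) (q : Ix X) :
    padicValNat q (Nc c) = (c q).val := by
  have hq := Ix_prime q
  have : Fact (q : ℕ).Prime := ⟨hq⟩
  rw [← Nat.factorization_def _ hq, Nc, Nat.factorization_prod (fun i _ => pow_ne_zero _ (Ix_prime i).ne_zero)]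
  rw [Finset.sum_apply']
  rw [Finset.sum_eq_single q]
  · rw [hq.factorization_pow]
    simp
  · intro r _ hr
    rw [(Ix_prime r).factorization_pow]
    rw [Finsupp.single_apply, if_neg]
    intro h
    exact hr (Subtype.ext h)
  · intro h
    exact absurd (Finset.mem_univ _) h

theorem Nc_not_pow {X l : ℕ} (hl : l.Prime) (c : Ix X → ZMod l) (hc : c ≠ 0) (b : ℚ) :
    b ^ l ≠ (Nc c : ℚ) := by
  have : NeZero l := ⟨hl.ne_zero⟩
  obtain ⟨q, hq⟩ := Function.ne_iff.1 hc
  refine rat_no_root' hl (Nc_ne c) (Ix_prime q) ?_ b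
  rw [Nc_val]
  intro hd
  have h1 := ZMod.val_lt (c q)
  have h2 : (c q).val ≠ 0 := by
    rw [Ne, ZMod.val_eq_zero]
    exact hq
  have := Nat.le_of_dvd (Nat.pos_of_ne_zero h2) hd
  omega

/-- **Prescribed residues.** For an odd prime `l` and all `X`, `B` there is a prime `p > B`, `p = 1 mod l`, such that
all the `l`-th power residues `a ≤ X` modulo `p` have a number of prime factors divisible by `l`. -/
theorem good (l : ℕ) (hl : l.Prime) (hl2 : l ≠ 2) (X B : ℕ) (hX : 2 ≤ X) :
    ∃ p, B < p ∧ p.Prime ∧ ∀ a, 0 < a → a ≤ X → (∃ y : ZMod p, y ^ l = (a : ZMod p)) → l ∣ Om a := by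
  classical
  by_contra hcon
  push Not at hcon
  have : Fact l.Prime := ⟨hl⟩
  have : NeZero l := ⟨hl.ne_zero⟩
  have hl1 : (1 : ℝ) < l := by exact_mod_cast hl.one_lt
  set D := (max B X).factorial with hD
  have hDp : ∀ p, p.Prime → ¬ p ∣ D → B < p ∧ X < p := by
    intro p hp hpD
    rw [hD, hp.dvd_factorial] at hpD
    omega
  let A : Finset (ZMod l)ˣ := {1}
  let w : (Ix X → ZMod l) → ℝ := fun c => l * (if ∑ i, c i = 0 then 1 else 0) - 1
  let ind : (Ix X → ZMod l) → ℕ → ℝ := fun c q =>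
    if (∃ u ∈ A, ((u : (ZMod l)ˣ) : ZMod l) = (q : ZMod l)) ∧ ∃ y : ZMod q, y ^ l = (Nc c : ZMod q) then 1 else 0
  -- the sum vanishes
  have hzero : ∀ q, q.Prime → ¬ q ∣ D → (∑ c, w c * ind c q) = (0 : ℝ) := by
    intro q hq hqD
    obtain ⟨hqB, hqX⟩ := hDp q hq hqD
    by_cases hA : ∃ u ∈ A, ((u : (ZMod l)ˣ) : ZMod l) = (q : ZMod l)
    · have hql : l ∣ q - 1 := by
        obtain ⟨u, hu, huq⟩ := hA
        rw [Finset.mem_singleton.1 hu, Units.val_one] at huq
        have h4 : ((q - 1 : ℕ) : ZMod l) = 0 := by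
          rw [Nat.cast_sub hq.one_le, ← huq, Nat.cast_one, sub_self]
        exact (ZMod.natCast_eq_zero_iff _ _).1 h4
      obtain ⟨θ, hθ1, hθ2⟩ := exists_log q l hq hl.ne_zero hql
      have hnd : ∀ r : Ix X, ¬ q ∣ (r : ℕ) := by
        intro r hr
        have := Nat.le_of_dvd (Ix_prime r).pos hr
        have := (mem_pr.1 r.2).1
        omega
      obtain ⟨a, ha0, haX, hay, hal⟩ := hcon q hqB hq
      have haq : ¬ q ∣ a := fun h => by
        have := Nat.le_of_dvd ha0 h
        omega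
      have hθa : θ a = ∑ r : Ix X, (a.factorization r : ZMod l) * θ r := by
        conv_lhs => rw [factor ha0 haX]
        exact theta_prod hq hθ1 _ _ _ hnd
      have hOm : Om a = ∑ r : Ix X, a.factorization r := by
        conv_lhs => rw [factor ha0 haX]
        exact Om_prod _ _ _ Ix_prime
      have h0 : ∑ r : Ix X, (a.factorization r : ZMod l) * θ r = 0 := by
        rw [← hθa]
        exact (hθ2 a haq).1 hay
      have h1 : ∑ r : Ix X, (a.factorization r : ZMod l) ≠ 0 := by
        intro h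
        apply hal
        rw [hOm, ← ZMod.natCast_eq_zero_iff]
        push_cast
        exact h
      have hcount := count_id (fun r : Ix X => θ r) (fun r => (a.factorization r : ZMod l)) h0 h1
      have hind : ∀ c : Ix X → ZMod l, ind c q = if ∑ r : Ix X, c r * θ r = 0 then 1 else 0 := by
        intro c
        have hNc : ¬ q ∣ Nc c := by
          intro hd
          obtain ⟨i, _, hi⟩ := (Prime.dvd_finsetProd_iff hq.prime _).1 hd
          exact hnd i (hq.dvd_of_dvd_pow hi)
        have h5 : θ (Nc c) = ∑ r : Ix X, c r * θ r := by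
          rw [Nc, theta_prod hq hθ1 _ _ _ hnd]
          apply Finset.sum_congr rfl
          intro r _
          rw [ZMod.natCast_zmod_val]
        have h6 := hθ2 (Nc c) hNc
        rw [h5] at h6
        simp only [ind]
        by_cases h7 : ∑ r : Ix X, c r * θ r = 0
        · rw [if_pos h7, if_pos ⟨hA, h6.2 h7⟩]
        · rw [if_neg h7, if_neg]
          rintro ⟨_, h8⟩
          exact h7 (h6.1 h8)
      have h8 : ∑ c, w c * ind c q =
          l * ((Finset.univ.filter (fun c : Ix X → ZMod l => ∑ i, c i * θ i = 0 ∧ ∑ i, c i = 0)).card : ℝ) -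
          ((Finset.univ.filter (fun c : Ix X → ZMod l => ∑ i, c i * θ i = 0)).card : ℝ) := by
        rw [Finset.card_filter, Finset.card_filter]
        push_cast
        rw [Finset.mul_sum, ← Finset.sum_sub_distrib]
        apply Finset.sum_congr rfl
        intro c _
        rw [hind c]
        simp only [w]
        by_cases e1 : ∑ i, c i * θ i = 0
        · by_cases e2 : ∑ i, c i = 0
          · rw [if_pos e1, if_pos e2, if_pos ⟨e1, e2⟩]; ring
          · rw [if_pos e1, if_neg e2, if_neg (fun h => e2 h.2)]; ring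
        · have e3 : ¬ (∑ i, c i * θ i = 0 ∧ ∑ i, c i = 0) := fun h => e1 h.1
          rw [if_neg e1, if_neg e3]; ring
      rw [h8, ← hcount]
      push_cast
      ring
    · apply Finset.sum_eq_zero
      intro c _
      have : ind c q = 0 := by
        simp only [ind]
        rw [if_neg]
        exact fun h => hA h.1
      rw [this, mul_zero]
  have hlim0 : Tendsto (M fun q => ∑ c, w c * ind c q) atTop (𝓝 0) := by
    refine M_congr (D := D) (Nat.factorial_pos _) (b := fun _ => 0) (fun q hq hqD => hzero q hq hqD) ?_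
    have : (M fun _ => (0:ℝ)) = fun _ => 0 := by
      funext N
      simp [M]
    rw [this]
    exact tendsto_const_nhds
  -- the densities
  have hAcast : ∀ u ∈ A, ZMod.castHom (dvd_refl l) (ZMod l) (u : ZMod l) = 1 := by
    intro u hu
    rw [Finset.mem_singleton.1 hu]
    simp
  have htot : ((l.totient : ℕ) : ℝ) = l - 1 := by
    rw [Nat.totient_prime hl, Nat.cast_sub hl.one_le, Nat.cast_one]
  have hAc : (A.card : ℝ) = 1 := by simp [A]
  have hdens : ∀ c : Ix X → ZMod l, Tendsto (M (ind c)) atTop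
      (𝓝 (if c = 0 then 1 / ((l:ℝ) - 1) else 1 / (((l:ℝ) - 1) * l))) := by
    intro c
    by_cases hc : c = 0
    · rw [if_pos hc]
      have h1 := (dens_main l l 2 hl.ne_zero hl hl2 (dvd_refl l) two_ne_zero (fun b => by
        have := rat_no_root hl Nat.prime_two b
        exact_mod_cast this) A hAcast).1
      rw [hAc, htot] at h1
      refine h1.congr fun n => ?_
      congr 1
      funext q
      simp only [ind]
      have hN : Nc c = 1 := by
        rw [hc]
        simp [Nc]
      have h2 : ∃ y : ZMod q, y ^ l = (Nc c : ZMod q) := ⟨1, by rw [hN]; simp⟩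
      by_cases h3 : ∃ u ∈ A, ((u : (ZMod l)ˣ) : ZMod l) = (q : ZMod l)
      · rw [if_pos h3, if_pos ⟨h3, h2⟩]
      · rw [if_neg h3, if_neg (fun h => h3 h.1)]
    · rw [if_neg hc]
      have h1 := (dens_main l l (Nc c) hl.ne_zero hl hl2 (dvd_refl l) (Nc_ne c)
        (fun b => Nc_not_pow hl c hc b) A hAcast).2
      rw [hAc, htot] at h1
      exact h1
  have hlim1 : Tendsto (M fun q => ∑ c, w c * ind c q) atTop
      (𝓝 (∑ c, w c * (if c = 0 then 1 / ((l:ℝ) - 1) else 1 / (((l:ℝ) - 1) * l)))) := by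
    have h1 : Tendsto (fun n => ∑ c, w c * M (ind c) n) atTop
        (𝓝 (∑ c, w c * (if c = 0 then 1 / ((l:ℝ) - 1) else 1 / (((l:ℝ) - 1) * l)))) :=
      tendsto_finsetSum _ fun c _ => (hdens c).const_mul _
    refine h1.congr fun n => ?_
    rw [M_sum]
    apply Finset.sum_congr rfl
    intro c _
    rw [M_smul]
  have huniq := tendsto_nhds_unique hlim0 hlim1
  -- the total weight
  have q0 : Ix X := ⟨2, mem_pr.2 ⟨hX, Nat.prime_two⟩⟩
  have hw0 : ∑ c, w c = 0 := by
    have h1 := count_id (fun _ : Ix X => (0 : ZMod l)) (Pi.single q0 1) (by simp) (by simp)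
    simp only [mul_zero, Finset.sum_const_zero, true_and, Finset.filter_true] at h1
    have h2 : ∑ c, w c = l * ((Finset.univ.filter (fun c : Ix X → ZMod l => ∑ i, c i = 0)).card : ℝ) -
        ((Finset.univ : Finset (Ix X → ZMod l)).card : ℝ) := by
      rw [Finset.card_filter, Finset.card_eq_sum_ones]
      push_cast
      rw [Finset.mul_sum, ← Finset.sum_sub_distrib]
    rw [h2, ← h1]
    push_cast
    ring
  have hfin : ∑ c, w c * (if c = 0 then 1 / ((l:ℝ) - 1) else 1 / (((l:ℝ) - 1) * l)) = 1 - 1 / l := by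
    have h1 : ∀ c, w c * (if c = 0 then 1 / ((l:ℝ) - 1) else 1 / (((l:ℝ) - 1) * l)) =
        w c * (1 / (((l:ℝ) - 1) * l)) + (if c = 0 then w c * (1 / ((l:ℝ) - 1) - 1 / (((l:ℝ) - 1) * l)) else 0) := by
      intro c
      by_cases hc : c = 0
      · rw [if_pos hc, if_pos hc]; ring
      · rw [if_neg hc, if_neg hc]; ring
    rw [Finset.sum_congr rfl fun c _ => h1 c, Finset.sum_add_distrib, ← Finset.sum_mul, hw0,
      Finset.sum_ite_eq' Finset.univ (0 : Ix X → ZMod l), if_pos (Finset.mem_univ _)]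
    have h2 : w 0 = l - 1 := by simp [w]
    rw [h2]
    have h3 : (l:ℝ) - 1 ≠ 0 := by linarith
    have h4 : (l:ℝ) ≠ 0 := by linarith
    field_simp
    ring
  rw [hfin] at huniq
  have : (1:ℝ) / l < 1 := by
    rw [div_lt_one (by linarith)]
    exact hl1
  linarith

end Pool.Agent.H552Res
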