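import Pool.Agent.H552Res.K1
import Pool.Agent.H552Res.Main

/-!
# Kummer theory over `ℚ(ζ_k)` for the `k`-th roots of the primes up to `X`, `k` odd
-/

set_option autoImplicit false

namespace Pool.Agent.H552Res

open NumberField Polynomial IntermediateField Pool.Agent.Q202.RT

section
variable {L : Type} [Field L] [NumberField L] [IsGalois ℚ L] {k : ℕ} {ζ : L}

theorem zadd (hζ : IsPrimitiveRoot ζ k) (hk : k ≠ 0) (a b : ZMod k) : ζ ^ (a + b).val = ζ ^ a.val * ζ ^ b.val := by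
  have : NeZero k := ⟨hk⟩
  rw [ZMod.val_add, ← pow_add]
  conv_rhs => rw [← Nat.div_add_mod (a.val + b.val) k, pow_add, pow_mul, hζ.pow_eq_one, one_pow, one_mul]

/-- the image of the Galois group over `ℚ(ζ)` -/
def Simg (hk : k ≠ 0) (hζ : IsPrimitiveRoot ζ k) {ι : Type} (α : ι → L) : AddSubgroup (ι → ZMod k) where
  carrier := {v | ∃ σ : Gal(L/ℚ), σ ζ = ζ ∧ ∀ q, σ (α q) = ζ ^ (v q).val * α q}
  zero_mem' := ⟨1, rfl, fun q => by simp⟩
  add_mem' := by
    rintro v w ⟨σ, hσ, hσ'⟩ ⟨τ, hτ, hτ'⟩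
    refine ⟨σ * τ, by rw [AlgEquiv.mul_apply, hτ, hσ], fun q => ?_⟩
    rw [AlgEquiv.mul_apply, hτ', map_mul, map_pow, hσ, hσ', Pi.add_apply, zadd hζ hk]
    ring
  neg_mem' := by
    rintro v ⟨σ, hσ, hσ'⟩
    have h1 : ∀ x, σ⁻¹ (σ x) = x := fun x => by
      rw [← AlgEquiv.mul_apply, inv_mul_cancel, AlgEquiv.one_apply]
    have h2 : σ⁻¹ ζ = ζ := by
      conv_lhs => rw [← hσ]
      exact h1 ζ
    refine ⟨σ⁻¹, h2, fun q => ?_⟩
    have h3 : α q = ζ ^ (v q).val * σ⁻¹ (α q) := by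
      have h4 := h1 (α q)
      rw [hσ', map_mul, map_pow, h2] at h4
      exact h4.symm
    have h5 : ζ ^ ((-v) q).val * ζ ^ (v q).val = 1 := by
      rw [← zadd hζ hk, Pi.neg_apply, neg_add_cancel]
      simp
    calc σ⁻¹ (α q) = (ζ ^ ((-v) q).val * ζ ^ (v q).val) * σ⁻¹ (α q) := by rw [h5, one_mul]
      _ = ζ ^ ((-v) q).val * (ζ ^ (v q).val * σ⁻¹ (α q)) := by rw [mul_assoc]
      _ = ζ ^ ((-v) q).val * α q := by rw [← h3]

theorem surj (hk : k ≠ 0) (hodd : ¬ 2 ∣ k) (hζ : IsPrimitiveRoot ζ k) {X : ℕ} (α : Ix X → L)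
    (hα : ∀ q, α q ^ k = ((q : ℕ) : L)) (v : Ix X → ZMod k) : v ∈ Simg hk hζ α := by
  classical
  have : NeZero k := ⟨hk⟩
  refine nak hk _ (fun l hl hlk e he => ?_) v
  by_contra hne
  have hl2 : l ≠ 2 := by rintro rfl; exact hodd hlk
  have hfl : Fact l.Prime := ⟨hl⟩
  have : NeZero l := ⟨hl.ne_zero⟩
  have hα0 : ∀ q, α q ≠ 0 := by
    intro q h
    have h1 := hα q
    rw [h, zero_pow hk] at h1
    exact (Ix_prime q).ne_zero (by exact_mod_cast h1.symm)
  obtain ⟨j, hj⟩ := hlk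
  have hj0 : j ≠ 0 := by rintro rfl; exact hk (by rw [hj]; simp)
  set x : L := ∏ q, α q ^ (j * (e q).val) with hx
  have hfix : ∀ σ : Gal(L/ℚ), σ ζ = ζ → σ x = x := by
    intro σ hσ
    have h1 : ∀ q, ∃ c : ℕ, c < k ∧ σ (α q) = ζ ^ c * α q := by
      intro q
      have h2 : (σ (α q) / α q) ^ k = 1 := by
        rw [div_pow, ← map_pow, hα, map_natCast, div_self]
        exact_mod_cast (Ix_prime q).ne_zero
      obtain ⟨i, hi, hi2⟩ := hζ.eq_pow_of_pow_eq_one h2
      refine ⟨i, hi, ?_⟩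
      rw [hi2, div_mul_cancel₀ _ (hα0 q)]
    choose c hc hcσ using h1
    have h2 : (fun q => (c q : ZMod k)) ∈ Simg hk hζ α := by
      refine ⟨σ, hσ, fun q => ?_⟩
      rw [ZMod.val_natCast, Nat.mod_eq_of_lt (hc q)]
      exact hcσ q
    have h3 := he _ h2
    have h4 : l ∣ ∑ q, c q * (e q).val := by
      rw [← ZMod.natCast_eq_zero_iff]
      push_cast
      rw [← h3]
      apply Finset.sum_congr rfl
      intro q _
      rw [map_natCast, ZMod.natCast_zmod_val, mul_comm]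
    rw [hx, map_prod]
    have h5 : ∀ q, σ (α q ^ (j * (e q).val)) = ζ ^ (j * (c q * (e q).val)) * α q ^ (j * (e q).val) := by
      intro q
      rw [map_pow, hcσ, mul_pow, ← pow_mul]
      congr 2
      ring
    rw [Finset.prod_congr rfl (fun q _ => h5 q), Finset.prod_mul_distrib, Finset.prod_pow_eq_pow_sum,
      ← Finset.mul_sum]
    obtain ⟨t, ht⟩ := h4
    have h6 : j * ∑ q, c q * (e q).val = k * t := by rw [ht, hj]; ring
    rw [h6, pow_mul, hζ.pow_eq_one, one_pow, one_mul]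
  set K : IntermediateField ℚ L := ℚ⟮ζ⟯ with hK
  have hxK : x ∈ K := by
    rw [← IsGalois.fixedField_fixingSubgroup K]
    rw [IntermediateField.mem_fixedField_iff]
    intro σ hσ
    apply hfix
    rw [IntermediateField.mem_fixingSubgroup_iff] at hσ
    exact hσ ζ (mem_adjoin_simple_self ℚ ζ)
  have hcy : IsCyclotomicExtension {k} ℚ K := hζ.intermediateField_adjoin_isCyclotomicExtension ℚ
  have hab : IsAbelianGalois ℚ K := IsCyclotomicExtension.isAbelianGalois {k} ℚ K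
  have hxl : x ^ l = (Nc e : L) := by
    rw [hx, ← Finset.prod_pow, Nc]
    push_cast
    apply Finset.prod_congr rfl
    intro q _
    rw [← hα q, ← pow_mul, ← pow_mul]
    congr 1
    rw [hj]
    ring
  refine ab_no_root ℚ hl hl2 (by exact_mod_cast hl.ne_zero) (Nc e : ℚ) (by exact_mod_cast Nc_ne e)
    (fun b => Nc_not_pow hl e hne b) (cyclotomic.irreducible_rat hl.pos) K ⟨x, hxK⟩ ?_
  apply Subtype.ext
  rw [map_natCast]
  push_cast
  exact hxl

end

end Pool.Agent.H552Res
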