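import Pool.Agent.H552Res.K2
import Pool.Agent.H552Res.K3

/-!
# Primes modulo which the small `k`-th power residues have a number of prime factors divisible by `k`, `k` odd
-/

set_option autoImplicit false

namespace Pool.Agent.H552Res

open NumberField Pool.Agent.Q202.RT Pool.Agent.W401.Cheb

/-- if `σ` fixes `ζ`, multiplies the `k`-th root `β` of `a` by `ζ ^ m` and is a Frobenius element at `q`, and `a` is a `k`-th
power modulo `q`, then `k ∣ m` -/
theorem frobK {L : Type} [Field L] [NumberField L] [IsGalois ℚ L] {k a m : ℕ} {ζ β : L} (hk : k ≠ 0)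
    (hζ : IsPrimitiveRoot ζ k) (hβ : β ^ k = a) {q : ℕ} [hq : Fact q.Prime] (hqk : ¬ q ∣ k) (hqa : ¬ q ∣ a)
    (hq1 : k ∣ q - 1) (φ : 𝓞 L →+* AlgebraicClosure (ZMod q)) {σ : Gal(L/ℚ)} (hσ : HasFrob q φ σ)
    (hwa : σ β = ζ ^ m * β) (hc : ∃ c : ZMod q, c ^ k = (a : ZMod q)) : k ∣ m := by
  set F := AlgebraicClosure (ZMod q) with hF
  have hkpos : 0 < k := Nat.pos_of_ne_zero hk
  have : NeZero k := ⟨hk⟩
  have hiβ : IsIntegral ℤ β := by
    apply IsIntegral.of_pow hkpos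
    rw [hβ, show (a : L) = algebraMap ℤ L (a : ℤ) by simp]
    exact isIntegral_algebraMap
  set β' : 𝓞 L := ⟨β, hiβ⟩ with hβ'
  have h1 : σ • β' = hζ.toInteger ^ m * β' := by
    apply RingOfIntegers.ext
    have e0 : ((hζ.toInteger ^ m * β' : 𝓞 L) : L) = ((hζ.toInteger ^ m : 𝓞 L) : L) * (β' : L) :=
      map_mul (algebraMap (𝓞 L) L) _ _
    have e1 : ((hζ.toInteger ^ m : 𝓞 L) : L) = (hζ.toInteger : L) ^ m := map_pow (algebraMap (𝓞 L) L) _ _
    rw [e0, e1]
    show σ β = ζ ^ m * β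
    exact hwa
  have h2 : β' ^ k = (a : 𝓞 L) := by
    apply RingOfIntegers.ext
    have e1 : ((β' ^ k : 𝓞 L) : L) = (β' : L) ^ k := map_pow (algebraMap (𝓞 L) L) _ _
    have e2 : (((a : ℕ) : 𝓞 L) : L) = (a : L) := map_natCast (algebraMap (𝓞 L) L) _
    rw [e1, e2]
    exact hβ
  have h3 : φ β' ^ k = (a : F) := by rw [← map_pow, h2, map_natCast]
  have hak : (a : F) ≠ 0 := fun h => hqa ((CharP.cast_eq_zero_iff F q a).1 h)
  have h0 : φ β' ≠ 0 := by
    intro h
    rw [h, zero_pow hk] at h3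
    exact hak h3.symm
  have h4 : φ hζ.toInteger ^ m * φ β' = φ β' ^ q := by rw [← map_pow, ← map_mul, ← h1]; exact hσ β'
  obtain ⟨c, hc⟩ := hc
  have hck : algebraMap (ZMod q) F c ^ k = (a : F) := by rw [← map_pow, hc, map_natCast]
  have hc0 : algebraMap (ZMod q) F c ≠ 0 := by
    intro h
    rw [h, zero_pow hk] at hck
    exact hak hck.symm
  set y : F := φ β' / algebraMap (ZMod q) F c with hy
  have hy1 : y ^ k = 1 := by rw [hy, div_pow, h3, hck, div_self hak]
  obtain ⟨j, hj⟩ := hq1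
  have hqj : q = k * j + 1 := by have := hq.out.one_le; omega
  have hyq : y ^ q = y := by
    have : ∀ n : ℕ, n = k * j + 1 → y ^ n = y := by
      rintro n rfl
      rw [pow_succ, pow_mul, hy1, one_pow, one_mul]
    exact this q hqj
  have hcq : algebraMap (ZMod q) F c ^ q = algebraMap (ZMod q) F c := by rw [← map_pow, ZMod.pow_card]
  have hαy : φ β' = y * algebraMap (ZMod q) F c := by rw [hy, div_mul_cancel₀ _ hc0]
  have h5 : φ β' ^ q = φ β' := by
    conv_lhs => rw [hαy, mul_pow, hyq, hcq]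
    exact hαy.symm
  rw [h5] at h4
  have h6 : φ hζ.toInteger ^ m = 1 := mul_right_cancel₀ h0 (by rw [h4, one_mul])
  have h7 : IsPrimitiveRoot (φ hζ.toInteger) k := prim_map (q := q) hk hqk φ hζ.toInteger_isPrimitiveRoot
  exact (h7.pow_eq_one_iff_dvd m).1 h6

/-- **Prescribed residues.** For an odd `k` and all `X`, `B` there is a prime `p > B` such that all the `k`-th power residues
`a ≤ X` modulo `p` have a number of prime factors divisible by `k`. -/
theorem goodK (k : ℕ) (hk : k ≠ 0) (hodd : ¬ 2 ∣ k) (X B : ℕ) :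
    ∃ p, B < p ∧ p.Prime ∧ ∀ a, 0 < a → a ≤ X → (∃ y : ZMod p, y ^ k = (a : ZMod p)) → k ∣ Om a := by
  classical
  obtain ⟨L, i1, i2, i3, ζ, α, hζ, hα⟩ := exists_fldK k hk (fun q : Ix X => (q : ℕ))
  obtain ⟨σ, hσ1, hσ2⟩ := surj hk hodd hζ α hα (fun _ => (1 : ZMod k))
  have hσ3 : ∀ q, σ (α q) = ζ * α q := by
    intro q
    rw [hσ2 q]
    congr 1
    rcases Nat.lt_or_ge 1 k with h | h
    · have : Fact (1 < k) := ⟨h⟩
      rw [ZMod.val_one, pow_one]
    · have h1 : k = 1 := by omega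
      subst h1
      have h2 : ζ = 1 := by simpa using hζ.pow_eq_one
      rw [h2, one_pow]
  obtain ⟨p, hpS, hpB⟩ := (infinite_frob L σ).exists_gt (max B (max X k))
  obtain ⟨hp, hxp⟩ := hpS
  have hfp : Fact p.Prime := ⟨hp⟩
  have hpk : ¬ p ∣ k := fun h => by
    have := Nat.le_of_dvd (Nat.pos_of_ne_zero hk) h
    omega
  obtain ⟨φ, hφ⟩ : ∃ φ : 𝓞 L →+* AlgebraicClosure (ZMod p), HasFrob p φ σ := by
    by_contra hno
    apply hxp
    unfold xp
    rw [dif_pos hp]
    have : IsEmpty {φ : 𝓞 L →+* AlgebraicClosure (ZMod p) // HasFrob p φ σ} := ⟨fun x => hno ⟨x.1, x.2⟩⟩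
    exact Nat.card_of_isEmpty
  have hp1 : k ∣ p - 1 := by
    have h1 := frob_zeta hk hζ hpk φ hφ (m := 1) (by rw [pow_one]; exact hσ1)
    have h2 : ((p - 1 : ℕ) : ZMod k) = 0 := by
      rw [Nat.cast_sub hp.one_le, ← h1, sub_self]
    exact (ZMod.natCast_eq_zero_iff _ _).1 h2
  refine ⟨p, by omega, hp, fun a ha haX hy => ?_⟩
  have hpa : ¬ p ∣ a := fun h => by
    have := Nat.le_of_dvd ha h
    omega
  have hOm : Om a = ∑ r : Ix X, a.factorization r := by
    conv_lhs => rw [factor ha haX]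
    exact Om_prod _ _ _ Ix_prime
  have hβ : (∏ q : Ix X, α q ^ (a.factorization q)) ^ k = (a : L) := by
    conv_rhs => rw [factor ha haX]
    rw [← Finset.prod_pow]
    push_cast
    apply Finset.prod_congr rfl
    intro q _
    rw [← hα q, ← pow_mul, ← pow_mul, mul_comm]
  refine frobK hk hζ hβ hpk hpa hp1 φ hφ ?_ hy
  rw [map_prod, hOm, ← Finset.prod_pow_eq_pow_sum, ← Finset.prod_mul_distrib]
  apply Finset.prod_congr rfl
  intro q _
  rw [map_pow, hσ3, mul_pow]

end Pool.Agent.H552Res
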