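import Pool.Agent.H552Res.K5
import Pool.Agent.H552Res.Fin2

/-!
# Prescribed weights, and zero triples
-/

set_option autoImplicit false

namespace Pool.Agent.H552Res

open NumberField Pool.Agent.Q202.RT Pool.Agent.W401.Cheb

/-- the sum of the weights of the prime factors, with multiplicity -/
def Wt (w : ℕ → ℕ) (a : ℕ) : ℕ := (a.primeFactorsList.map w).sum

theorem Wt_one (w : ℕ → ℕ) : Wt w 1 = 0 := by simp [Wt]

theorem Wt_prime (w : ℕ → ℕ) {q : ℕ} (hq : q.Prime) : Wt w q = w q := by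
  simp [Wt, Nat.primeFactorsList_prime hq]

theorem Wt_mul (w : ℕ → ℕ) {a b : ℕ} (ha : a ≠ 0) (hb : b ≠ 0) : Wt w (a * b) = Wt w a + Wt w b := by
  have h := ((Nat.perm_primeFactorsList_mul ha hb).map w).sum_eq
  rw [List.map_append, List.sum_append] at h
  exact h

theorem Wt_pow (w : ℕ → ℕ) {a : ℕ} (ha : a ≠ 0) (n : ℕ) : Wt w (a ^ n) = n * Wt w a := by
  induction n with
  | zero => simp [Wt_one]
  | succ n ih => rw [pow_succ, Wt_mul w (pow_ne_zero _ ha) ha, ih]; ring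

theorem Wt_prod (w : ℕ → ℕ) {ι : Type*} (s : Finset ι) (f e : ι → ℕ) (hf : ∀ i, (f i).Prime) :
    Wt w (∏ i ∈ s, f i ^ e i) = ∑ i ∈ s, e i * w (f i) := by
  classical
  induction s using Finset.induction_on with
  | empty => simp [Wt_one]
  | insert i s hi ih =>
    rw [Finset.prod_insert hi, Finset.sum_insert hi, Wt_mul w (pow_ne_zero _ (hf i).ne_zero)
      (Finset.prod_ne_zero_iff.2 fun j _ => pow_ne_zero _ (hf j).ne_zero), ih, Wt_pow w (hf i).ne_zero,
      Wt_prime w (hf i)]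

theorem list_bd (w : ℕ → ℕ) (b : ℕ) (l : List ℕ) (h : ∀ q ∈ l, b ^ w q ≤ q) : b ^ (l.map w).sum ≤ l.prod := by
  induction l with
  | nil => simp
  | cons q l ih =>
    rw [List.map_cons, List.sum_cons, List.prod_cons, pow_add]
    exact Nat.mul_le_mul (h q (by simp)) (ih fun r hr => h r (by simp [hr]))

theorem Wt_bd (w : ℕ → ℕ) (b a : ℕ) (ha : a ≠ 0) (h : ∀ q, q.Prime → q ∣ a → b ^ w q ≤ q) : b ^ Wt w a ≤ a := by
  have h1 := list_bd w b a.primeFactorsList (fun q hq =>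
    h q (Nat.prime_of_mem_primeFactorsList hq) (Nat.dvd_of_mem_primeFactorsList hq))
  rwa [Nat.prod_primeFactorsList ha] at h1

theorem Wt_ge (w : ℕ → ℕ) (a q : ℕ) (ha : a ≠ 0) (hq : q.Prime) (hqa : q ∣ a) : w q ≤ Wt w a := by
  obtain ⟨c, rfl⟩ := hqa
  have hc : c ≠ 0 := by rintro rfl; simp at ha
  rw [Wt_mul w hq.ne_zero hc, Wt_prime w hq]
  omega

/-- **Prescribed weights.** For an odd `k`, all weights `w` and all `X`, `B` there is a prime `p > B` such that all the `k`-th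
power residues `a ≤ X` modulo `p` have weight divisible by `k`. -/
theorem goodW (k : ℕ) (hk : k ≠ 0) (hodd : ¬ 2 ∣ k) (w : ℕ → ℕ) (X B : ℕ) :
    ∃ p, B < p ∧ p.Prime ∧ ∀ a, 0 < a → a ≤ X → (∃ y : ZMod p, y ^ k = (a : ZMod p)) → k ∣ Wt w a := by
  classical
  have : NeZero k := ⟨hk⟩
  obtain ⟨L, i1, i2, i3, ζ, α, hζ, hα⟩ := exists_fldK k hk (fun q : Ix X => (q : ℕ))
  obtain ⟨σ, hσ1, hσ2⟩ := surj hk hodd hζ α hα (fun q => (w q : ZMod k))
  have hσ3 : ∀ q : Ix X, σ (α q) = ζ ^ w q * α q := by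
    intro q
    rw [hσ2 q, ZMod.val_natCast]
    congr 1
    rw [pmod hk hζ]
    simp
  obtain ⟨p, hpS, hpB⟩ := (infinite_frob L σ).exists_gt (max B (max X k))
  obtain ⟨hp, hxp⟩ := hpS
  have hfp : Fact p.Prime := ⟨hp⟩
  have hpk : ¬ p ∣ k := fun h => by
    have := Nat.le_of_dvd (Nat.pos_of_ne_zero hk) h
    omega
  obtain ⟨φ, hφ⟩ : ∃ φ : 𝓞 L →+* AlgebraicClosure (ZMod p), HasFrob p φ σ := by
    by_contra hno
    apply hxp
    unfold xp
    rw [dif_pos hp]
    have : IsEmpty {φ : 𝓞 L →+* AlgebraicClosure (ZMod p) // HasFrob p φ σ} := ⟨fun x => hno ⟨x.1, x.2⟩⟩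
    exact Nat.card_of_isEmpty
  have hp1 : k ∣ p - 1 := by
    have h1 := frob_zeta hk hζ hpk φ hφ (m := 1) (by rw [pow_one]; exact hσ1)
    have h2 : ((p - 1 : ℕ) : ZMod k) = 0 := by
      rw [Nat.cast_sub hp.one_le, ← h1, sub_self]
    exact (ZMod.natCast_eq_zero_iff _ _).1 h2
  refine ⟨p, by omega, hp, fun a ha haX hy => ?_⟩
  have hpa : ¬ p ∣ a := fun h => by
    have := Nat.le_of_dvd ha h
    omega
  have hOm : Wt w a = ∑ r : Ix X, a.factorization r * w r := by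
    conv_lhs => rw [factor ha haX]
    exact Wt_prod w _ _ _ Ix_prime
  have hβ : (∏ q : Ix X, α q ^ (a.factorization q)) ^ k = (a : L) := by
    conv_rhs => rw [factor ha haX]
    rw [← Finset.prod_pow]
    push_cast
    apply Finset.prod_congr rfl
    intro q _
    rw [← hα q, ← pow_mul, ← pow_mul, mul_comm]
  refine frobK hk hζ hβ hpk hpa hp1 φ hφ ?_ hy
  rw [map_prod, hOm, ← Finset.prod_pow_eq_pow_sum, ← Finset.prod_mul_distrib]
  apply Finset.prod_congr rfl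
  intro q _
  rw [map_pow, hσ3, mul_pow, ← pow_mul, mul_comm (w (q : ℕ))]

end Pool.Agent.H552Res
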