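import Pool.Agent.H552Res.W1

/-!
# Superexponential growth of `Λ(k, 3)`, from the finiteness of the pairs of smooth numbers with difference `1` or `2`
-/

set_option autoImplicit false

namespace Pool.Agent.H552Res

/-- the weights: `1` at `3` and at the primes greater than `C` -/
def wC (C : ℕ) (q : ℕ) : ℕ := if q = 3 ∨ C < q then 1 else 0

/-- the pairs of `C`-smooth numbers with difference `1` or `2` are bounded by `N` -/
def PairBd (C N : ℕ) : Prop := ∀ u v : ℕ, 0 < u → (v = u + 1 ∨ v = u + 2) → (∀ q, q.Prime → q ∣ u → q ≤ C) →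
  (∀ q, q.Prime → q ∣ v → q ≤ C) → u ≤ N

theorem wC_le (C q : ℕ) : wC C q ≤ 1 := by
  unfold wC
  split_ifs <;> omega

theorem big_or_smooth (C k x : ℕ) (hx : x ≠ 0) (h3 : ¬ 3 ∣ x) (hk : k ∣ Wt (wC C) x) :
    C ^ k ≤ x ∨ ∀ q, q.Prime → q ∣ x → q ≤ C := by
  rcases Nat.eq_zero_or_pos (Wt (wC C) x) with h0 | h0
  · right
    intro q hq hqx
    have h1 := Wt_ge (wC C) x q hx hq hqx
    rw [h0] at h1
    by_contra hlt
    push Not at hlt
    have : wC C q = 1 := by
      unfold wC
      rw [if_pos (Or.inr hlt)]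
    omega
  · rcases Nat.eq_zero_or_pos C with hC | hC
    · left
      subst hC
      rcases Nat.eq_zero_or_pos k with hk0 | hk0
      · subst hk0
        simp only [pow_zero]
        omega
      · rw [zero_pow (by omega)]
        omega
    · left
      have h1 := Wt_bd (wC C) C x hx (fun q hq hqx => by
        unfold wC
        split_ifs with h
        · rcases h with h | h
          · subst h
            exact absurd hqx h3
          · rw [pow_one]; exact h.le
        · rw [pow_zero]; exact hq.one_le)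
      exact (Nat.pow_le_pow_right hC (Nat.le_of_dvd h0 hk)).trans h1

theorem triple_super (C N k a : ℕ) (hN : PairBd C N) (ha : 0 < a) (hk : N + 3 ≤ k)
    (h : ∀ i < 3, k ∣ Wt (wC C) (a + i)) : C ^ k ≤ a + 2 := by
  have h0 : k ∣ Wt (wC C) a := h 0 (by norm_num)
  have h1 := h 1 (by norm_num)
  have h2 := h 2 (by norm_num)
  -- the multiple of three is large
  have hthree : ∀ x, 0 < x → 3 ∣ x → k ∣ Wt (wC C) x → N + 3 < x := by
    intro x hx h3 hkx
    have e1 := Wt_ge (wC C) x 3 (by omega) Nat.prime_three h3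
    have e2 : wC C 3 = 1 := by unfold wC; rw [if_pos (Or.inl rfl)]
    have e3 := Nat.le_of_dvd (by omega) hkx
    have e4 := Wt_bd (wC C) 2 x (by omega) (fun q hq _ => by
      calc 2 ^ wC C q ≤ 2 ^ 1 := Nat.pow_le_pow_right (by norm_num) (wC_le C q)
        _ ≤ q := by rw [pow_one]; exact hq.two_le)
    have e5 : 2 ^ k ≤ 2 ^ Wt (wC C) x := Nat.pow_le_pow_right (by norm_num) e3
    have e6 : k < 2 ^ k := Nat.lt_two_pow_self
    omega
  have hmod : a % 3 = 0 ∨ a % 3 = 1 ∨ a % 3 = 2 := by omega
  rcases hmod with hm | hm | hm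
  · -- `3 ∣ a`
    rcases big_or_smooth C k (a+1) (by omega) (by omega) h1 with hb | hs
    · omega
    rcases big_or_smooth C k (a+2) (by omega) (by omega) h2 with hb | hs'
    · omega
    have e := hN (a+1) (a+2) (by omega) (Or.inl rfl) hs hs'
    have := hthree a ha (by omega) h0
    omega
  · -- `3 ∣ a + 2`
    rcases big_or_smooth C k a (by omega) (by omega) h0 with hb | hs
    · omega
    rcases big_or_smooth C k (a+1) (by omega) (by omega) h1 with hb | hs'
    · omega
    have e := hN a (a+1) (by omega) (Or.inl rfl) hs hs'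
    have := hthree (a+2) (by omega) (by omega) h2
    omega
  · -- `3 ∣ a + 1`
    rcases big_or_smooth C k a (by omega) (by omega) h0 with hb | hs
    · omega
    rcases big_or_smooth C k (a+2) (by omega) (by omega) h2 with hb | hs'
    · omega
    have e := hN a (a+2) (by omega) (Or.inr rfl) hs hs'
    have := hthree (a+1) (by omega) (by omega) h1
    omega

open Filter in
theorem lam_super (C N k : ℕ) (hN : PairBd C N) (hk : N + 3 ≤ k) (hodd : Odd k) :
    ((C ^ k - 2 : ℕ) : ℕ∞) ≤ Lam k 3 := by
  have h2 : ¬ 2 ∣ k := by rw [← even_iff_two_dvd]; exact Nat.not_even_iff_odd.2 hodd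
  refine le_limsup_of_frequently_le ?_ (by isBoundedDefault)
  intro hev
  rw [eventually_inf_principal, eventually_atTop] at hev
  obtain ⟨B, hB⟩ := hev
  obtain ⟨p, hp1, hp2, hp3⟩ := goodW k (by omega) h2 (wC C) (C ^ k) B
  refine hB p hp1.le hp2 ?_
  unfold r
  refine le_iInf₂ fun a ha => ?_
  by_contra hlt
  have hac : a < C ^ k - 2 := by
    rw [not_le] at hlt
    exact_mod_cast hlt
  have := triple_super C N k a hN ha.1 hk
    (fun i hi => hp3 (a + i) (by omega) (by omega) (res_pow dvd_rfl (ha.2 i hi)))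
  omega

end Pool.Agent.H552Res
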