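import Pool.Agent.TH526.ZL.N
import Pool.Agent.H552Res.W2

/-!
# The pairs of smooth numbers with difference `1` or `2` are finite in number
-/

set_option autoImplicit false

namespace Pool.Agent.H552Res

open Pool.Agent.TH526.ZL Pool.Agent.TH551.SU

theorem pair_fin (C d : ℕ) (hd : d = 1 ∨ d = 2) : ∃ N, ∀ u : ℕ, 0 < u → (∀ q, q.Prime → q ∣ u → q ≤ C) →
    (∀ q, q.Prime → q ∣ u + d → q ≤ C) → u ≤ N := by
  classical
  let P : Finset ℕ := (Finset.range (C + 1)).filter Nat.Prime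
  let b : Fin P.card → ℕ := fun v => (P.equivFin.symm v : ℕ)
  have hbP : ∀ v, (b v).Prime := fun v => (Finset.mem_filter.1 (P.equivFin.symm v).2).2
  have hbi : Function.Injective b := fun v w h => P.equivFin.symm.injective (Subtype.ext h)
  have hbs : ∀ p : ℕ, p.Prime → p ≤ C → ∃ v, b v = p := by
    intro p hp hpD
    refine ⟨P.equivFin ⟨p, Finset.mem_filter.2 ⟨Finset.mem_range.2 (by omega), hp⟩⟩, ?_⟩
    simp [b]
  have hS : ∀ x : ℕ, x ≠ 0 → (∀ q, q.Prime → q ∣ x → q ≤ C) → IsSU b (x : ℚ) := by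
    intro x hx h
    have h1 := isSU_of hbs (fun v => (hbP v).ne_zero) (x : ℤ) (by exact_mod_cast hx)
      (fun p hp hlt hpd => absurd (h p hp (Int.natCast_dvd_natCast.1 hpd)) (by omega))
    simpa using h1
  obtain ⟨H, hH⟩ := sunit b hbP hbi (m := 3) ![(d : ℚ), 1, -1] (by
    intro i
    fin_cases i
    · show (d : ℚ) ≠ 0
      rcases hd with rfl | rfl <;> norm_num
    · show (1 : ℚ) ≠ 0
      norm_num
    · show (-1 : ℚ) ≠ 0
      norm_num) 1
  refine ⟨d * H + H, fun u hu hsu hsv => ?_⟩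
  obtain ⟨j, hj, hj1, hj2⟩ := hH ![(1 : ℚ), (u : ℚ), ((u + d : ℕ) : ℚ)] (by
    intro i
    fin_cases i
    · show IsSU b (1 : ℚ)
      have := hS 1 one_ne_zero (fun q hq h => absurd (Nat.dvd_one.1 h) hq.one_lt.ne')
      simpa using this
    · exact hS u (by omega) hsu
    · exact hS (u + d) (by omega) hsv) (by
    rw [Fin.sum_univ_three]
    show (d : ℚ) * 1 + 1 * (u : ℚ) + (-1) * ((u + d : ℕ) : ℚ) = 0
    push_cast
    ring)
  have key : ∀ r : ℚ, r = (u : ℚ) / ((u + d : ℕ) : ℚ) → r.den ≤ H → u ≤ d * H := by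
    intro r hr hden
    have hv : ((u + d : ℕ) : ℚ) ≠ 0 := by
      have : u + d ≠ 0 := by omega
      exact_mod_cast this
    have e1 : r * ((u + d : ℕ) : ℚ) = u := by rw [hr, div_mul_cancel₀ _ hv]
    have e2 : r * (r.den : ℚ) = r.num := Rat.mul_den_eq_num r
    have e3 : (r.num : ℚ) * ((u + d : ℕ) : ℚ) = u * r.den := by
      rw [← e2, ← e1]
      ring
    have e4 : r.num * ((u + d : ℕ) : ℤ) = u * r.den := by exact_mod_cast e3
    have hdpos : (0 : ℤ) < r.den := by exact_mod_cast r.den_pos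
    have hd0 : (0 : ℤ) < d := by rcases hd with rfl | rfl <;> norm_num
    have hu0 : (0 : ℤ) < u := by exact_mod_cast hu
    push_cast at e4
    have e5 : r.num < r.den := by
      by_contra hge
      push Not at hge
      have : (r.den : ℤ) * (u + d) ≤ r.num * (u + d) := mul_le_mul_of_nonneg_right hge (by positivity)
      rw [e4] at this
      nlinarith [mul_pos hdpos hd0]
    have e6 : ((u : ℤ) + d) * (r.den - r.num) = d * r.den := by linear_combination -e4
    have e7 : ((u : ℤ) + d) * 1 ≤ ((u : ℤ) + d) * (r.den - r.num) :=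
      mul_le_mul_of_nonneg_left (by omega) (by positivity)
    have e8 : (d : ℤ) * r.den ≤ d * H := mul_le_mul_of_nonneg_left (by exact_mod_cast hden) hd0.le
    have e9 : (u : ℤ) ≤ d * H := by linarith
    exact_mod_cast e9
  fin_cases j
  · have h1 : ((u : ℚ) / 1).num.natAbs ≤ H := hj1
    rw [div_one] at h1
    have h2 : u ≤ H := by simpa using h1
    have : 0 ≤ d * H := Nat.zero_le _
    omega
  · exact absurd rfl hj
  · have h1 := key _ rfl hj2
    omega

theorem pairBd_exists (C : ℕ) : ∃ N, PairBd C N := by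
  obtain ⟨N1, h1⟩ := pair_fin C 1 (Or.inl rfl)
  obtain ⟨N2, h2⟩ := pair_fin C 2 (Or.inr rfl)
  refine ⟨max N1 N2, ?_⟩
  intro u v hu hv hsu hsv
  rcases hv with rfl | rfl
  · exact (h1 u hu hsu hsv).trans (le_max_left _ _)
  · exact (h2 u hu hsu hsv).trans (le_max_right _ _)

/-- `Λ(k, 3)` grows faster than every exponential along the odd `k` -/
theorem triple_growth (C : ℕ) : ∃ k₀ : ℕ, ∀ k, k₀ ≤ k → Odd k → ((C ^ k : ℕ) : ℕ∞) ≤ Lam k 3 := by
  obtain ⟨N, hN⟩ := pairBd_exists (C + 2)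
  refine ⟨N + 3, fun k hk hodd => ?_⟩
  refine le_trans ?_ (lam_super (C + 2) N k hN hk hodd)
  have h1 : C ^ k ≤ (C + 2) ^ k - 2 := by
    obtain ⟨j, rfl⟩ : ∃ j, k = j + 1 := ⟨k - 1, by omega⟩
    have h2 : C ^ j ≤ (C + 2) ^ j := Nat.pow_le_pow_left (by omega) j
    have h3 : 1 ≤ (C + 2) ^ j := Nat.one_le_pow _ _ (by omega)
    rw [pow_succ, pow_succ]
    have h4 : C ^ j * C ≤ (C + 2) ^ j * C := Nat.mul_le_mul_right _ h2
    have h5 : (C + 2) ^ j * (C + 2) = (C + 2) ^ j * C + (C + 2) ^ j * 2 := by ring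
    omega
  exact_mod_cast h1

end Pool.Agent.H552Res
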