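import Pool.Agent.H552Res.W1

/-!
# Superexponential growth of `Λ(k, 2)`, from a bound for the power of two dividing `n ± 1`, `n` smooth
-/

set_option autoImplicit false

namespace Pool.Agent.H552Res

open NumberField Pool.Agent.Q202.RT Pool.Agent.W401.Cheb

/-- **Prescribed weights, even exponents.** -/
theorem goodW2 (m : ℕ) (hm : m ≠ 0) (w : ℕ → ℕ) (X B : ℕ) :
    ∃ p, B < p ∧ p.Prime ∧ ∀ a, 0 < a → a ≤ X → (∃ y : ZMod p, y ^ (2 * m) = (a : ZMod p)) → m ∣ Wt w a := by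
  classical
  have : NeZero m := ⟨hm⟩
  have hk : 2 * m ≠ 0 := by omega
  obtain ⟨L, i1, i2, i3, ζ, α, hζ, hα⟩ := exists_fldK (2 * m) hk (fun q : Ix X => (q : ℕ))
  have hη : IsPrimitiveRoot (ζ ^ 2) m := hζ.pow (by omega) rfl
  obtain ⟨σ, hσ1, hσ2⟩ := surj2 hm hζ hη rfl α hα (fun q => (w q : ZMod m))
  have hσ3 : ∀ q : Ix X, σ (α q) = (ζ ^ 2) ^ w q * α q := by
    intro q
    rw [hσ2 q, ZMod.val_natCast]
    congr 1
    rw [pmod hm hη]
    simp
  obtain ⟨p, hpS, hpB⟩ := (infinite_frob L σ).exists_gt (max B (max X (2 * m)))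
  obtain ⟨hp, hxp⟩ := hpS
  have hfp : Fact p.Prime := ⟨hp⟩
  have hpk : ¬ p ∣ 2 * m := fun h => by
    have := Nat.le_of_dvd (Nat.pos_of_ne_zero hk) h
    omega
  obtain ⟨φ, hφ⟩ : ∃ φ : 𝓞 L →+* AlgebraicClosure (ZMod p), HasFrob p φ σ := by
    by_contra hno
    apply hxp
    unfold xp
    rw [dif_pos hp]
    have : IsEmpty {φ : 𝓞 L →+* AlgebraicClosure (ZMod p) // HasFrob p φ σ} := ⟨fun x => hno ⟨x.1, x.2⟩⟩
    exact Nat.card_of_isEmpty
  have hp1 : 2 * m ∣ p - 1 := by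
    have h1 := frob_zeta hk hζ hpk φ hφ (m := 1) (by rw [pow_one]; exact hσ1)
    have h2 : ((p - 1 : ℕ) : ZMod (2 * m)) = 0 := by
      rw [Nat.cast_sub hp.one_le, ← h1, sub_self]
    exact (ZMod.natCast_eq_zero_iff _ _).1 h2
  refine ⟨p, by omega, hp, fun a ha haX hy => ?_⟩
  have hpa : ¬ p ∣ a := fun h => by
    have := Nat.le_of_dvd ha h
    omega
  have hOm : Wt w a = ∑ r : Ix X, a.factorization r * w r := by
    conv_lhs => rw [factor ha haX]
    exact Wt_prod w _ _ _ Ix_prime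
  have hβ : (∏ q : Ix X, α q ^ (a.factorization q)) ^ (2 * m) = (a : L) := by
    conv_rhs => rw [factor ha haX]
    rw [← Finset.prod_pow]
    push_cast
    apply Finset.prod_congr rfl
    intro q _
    rw [← hα q, ← pow_mul, ← pow_mul, mul_comm]
  have h := frobK (m := 2 * Wt w a) hk hζ hβ hpk hpa hp1 φ hφ ?_ hy
  · exact Nat.dvd_of_mul_dvd_mul_left two_pos h
  rw [map_prod, pow_mul, hOm, ← Finset.prod_pow_eq_pow_sum, ← Finset.prod_mul_distrib]
  apply Finset.prod_congr rfl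
  intro q _
  rw [map_pow, hσ3, mul_pow, ← pow_mul (ζ ^ 2), mul_comm (w (q : ℕ))]

/-- the weights: `1` at `2` and at the primes greater than `Y` -/
def wP (Y : ℕ) (q : ℕ) : ℕ := if q = 2 ∨ Y < q then 1 else 0

/-- the power of two dividing a neighbour of an odd `Y`-smooth number `n` is at most `C₀ n ^ ε` -/
def RidBd (Y : ℕ) (ε C₀ : ℝ) : Prop := ∀ n n1 v : ℕ, 1 < n → (∀ q, q.Prime → q ∣ n → q ≤ Y) → ¬ 2 ∣ n →
  (n1 = n + 1 ∨ n = n1 + 1) → 2 ^ v ∣ n1 → (2 : ℝ) ^ v ≤ C₀ * (n : ℝ) ^ ε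

theorem wP_odd_bd (Y x : ℕ) (_hY : 0 < Y) (hx : x ≠ 0) (h2 : ¬ 2 ∣ x) : Y ^ Wt (wP Y) x ≤ x := by
  refine Wt_bd (wP Y) Y x hx (fun q hq hqx => ?_)
  unfold wP
  split_ifs with h
  · rcases h with h | h
    · subst h
      exact absurd hqx h2
    · rw [pow_one]; exact h.le
  · rw [pow_zero]; exact hq.one_le

theorem big_or_smooth2 (Y k x : ℕ) (hY : 0 < Y) (hx : x ≠ 0) (h2 : ¬ 2 ∣ x) (hk : k ∣ Wt (wP Y) x) :
    Y ^ k ≤ x ∨ ∀ q, q.Prime → q ∣ x → q ≤ Y := by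
  rcases Nat.eq_zero_or_pos (Wt (wP Y) x) with h0 | h0
  · right
    intro q hq hqx
    have h1 := Wt_ge (wP Y) x q hx hq hqx
    rw [h0] at h1
    by_contra hlt
    push Not at hlt
    have : wP Y q = 1 := by
      unfold wP
      rw [if_pos (Or.inr hlt)]
    omega
  · left
    exact (Nat.pow_le_pow_right hY (Nat.le_of_dvd h0 hk)).trans (wP_odd_bd Y x hY hx h2)

/-- the neighbours `n1` (even) and `n2` (odd) -/
theorem pair_super (c k n1 n2 N : ℕ) (hc : 2 ≤ c) {C₀ : ℝ} (hR : RidBd (c ^ 2) (1 / (4 * c)) C₀) (hN : C₀ ≤ N)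
    (hk : 4 * N + 2 ≤ k) (he : 2 ∣ n1) (h1 : 0 < n1) (h2 : 0 < n2) (hn : n1 = n2 + 1 ∨ n2 = n1 + 1)
    (hk1 : k ∣ Wt (wP (c ^ 2)) n1) (hk2 : k ∣ Wt (wP (c ^ 2)) n2) : c ^ k ≤ n1 := by
  by_contra hlt
  push Not at hlt
  have ho : ¬ 2 ∣ n2 := by omega
  have hY : 0 < c ^ 2 := by positivity
  have hw2 : wP (c ^ 2) 2 = 1 := by unfold wP; rw [if_pos (Or.inl rfl)]
  have hck : 1 < c ^ k := Nat.one_lt_pow (by omega) (by omega)
  rcases big_or_smooth2 (c ^ 2) k n2 hY (by omega) ho hk2 with hb | hs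
  · have e1 : (c ^ 2) ^ k = c ^ k * c ^ k := by ring
    rw [e1] at hb
    have h9 : 2 * c ^ k ≤ c ^ k * c ^ k := Nat.mul_le_mul_right (c ^ k) hck
    have h10 : n2 ≤ c ^ k := by omega
    linarith
  · have hW1 : 1 ≤ Wt (wP (c ^ 2)) n1 := by
      have := Wt_ge (wP (c ^ 2)) n1 2 (by omega) Nat.prime_two he
      omega
    have hWk := Nat.le_of_dvd (by omega) hk1
    rcases Nat.lt_or_ge 1 n2 with hn2 | hn2
    · obtain ⟨v, m, hm, hvm⟩ := Nat.exists_eq_two_pow_mul_odd (n := n1) (by omega)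
      have hm2 : ¬ 2 ∣ m := by rw [← even_iff_two_dvd]; exact Nat.not_even_iff_odd.2 hm
      have hm0 : m ≠ 0 := by rintro rfl; simp at hm2
      have hWn : Wt (wP (c ^ 2)) n1 = v + Wt (wP (c ^ 2)) m := by
        rw [hvm, Wt_mul _ (by positivity) hm0, Wt_pow _ two_ne_zero, Wt_prime _ Nat.prime_two, hw2, mul_one]
      have hR1 := hR n2 n1 v hn2 hs ho hn ⟨m, hvm⟩
      -- `2 v ≤ k`
      have hcpos : (0 : ℝ) < c := by positivity
      have hn2c : (n2 : ℝ) ≤ (c : ℝ) ^ (k : ℝ) := by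
        rw [Real.rpow_natCast]
        have : n2 ≤ c ^ k := by omega
        exact_mod_cast this
      have hc2 : (c : ℝ) ≤ (2 : ℝ) ^ (c : ℝ) := by
        rw [Real.rpow_natCast]
        exact_mod_cast (Nat.lt_two_pow_self (n := c)).le
      have e1 : (n2 : ℝ) ^ (1 / (4 * (c : ℝ))) ≤ (2 : ℝ) ^ ((k : ℝ) / 4) := by
        calc (n2 : ℝ) ^ (1 / (4 * (c : ℝ))) ≤ ((c : ℝ) ^ (k : ℝ)) ^ (1 / (4 * (c : ℝ))) :=
              Real.rpow_le_rpow (by positivity) hn2c (by positivity)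
          _ ≤ (((2 : ℝ) ^ (c : ℝ)) ^ (k : ℝ)) ^ (1 / (4 * (c : ℝ))) :=
              Real.rpow_le_rpow (by positivity) (Real.rpow_le_rpow hcpos.le hc2 (by positivity)) (by positivity)
          _ = (2 : ℝ) ^ ((k : ℝ) / 4) := by
              rw [← Real.rpow_mul (by norm_num), ← Real.rpow_mul (by norm_num)]
              congr 1
              field_simp
      have e2 : (C₀ : ℝ) ≤ (2 : ℝ) ^ ((k : ℝ) / 4) := by
        have h5 : (N : ℝ) ≤ (2 : ℝ) ^ (N : ℝ) := by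
          rw [Real.rpow_natCast]
          exact_mod_cast (Nat.lt_two_pow_self (n := N)).le
        have h6 : (2 : ℝ) ^ (N : ℝ) ≤ (2 : ℝ) ^ ((k : ℝ) / 4) := by
          apply Real.rpow_le_rpow_of_exponent_le (by norm_num)
          have : (4 * N + 2 : ℝ) ≤ k := by exact_mod_cast hk
          linarith
        linarith
      have e3 : (2 : ℝ) ^ (v : ℝ) ≤ (2 : ℝ) ^ ((k : ℝ) / 2) := by
        rw [Real.rpow_natCast]
        calc (2 : ℝ) ^ v ≤ C₀ * (n2 : ℝ) ^ (1 / (4 * (c : ℝ))) := hR1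
          _ ≤ (2 : ℝ) ^ ((k : ℝ) / 4) * (2 : ℝ) ^ ((k : ℝ) / 4) :=
              mul_le_mul e2 e1 (by positivity) (by positivity)
          _ = (2 : ℝ) ^ ((k : ℝ) / 2) := by
              rw [← Real.rpow_add (by norm_num)]
              congr 1
              ring
      have e4 : (v : ℝ) ≤ (k : ℝ) / 2 := (Real.rpow_le_rpow_left_iff (by norm_num)).1 e3
      have e5 : 2 * v ≤ k := by
        have : (2 * v : ℝ) ≤ k := by linarith
        exact_mod_cast this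
      have e6 := wP_odd_bd (c ^ 2) m hY hm0 hm2
      have e7 : c ^ k ≤ (c ^ 2) ^ Wt (wP (c ^ 2)) m := by
        rw [← pow_mul]
        exact Nat.pow_le_pow_right (by omega) (by omega)
      have e8 : m ≤ n1 := by
        rw [hvm]
        exact Nat.le_mul_of_pos_left _ (by positivity)
      omega
    · have e1 : n2 = 1 := by omega
      have e2 : n1 = 2 := by omega
      rw [e2, Wt_prime _ Nat.prime_two, hw2] at hWk
      omega

open Filter in
theorem lam_super2 (c k d N : ℕ) (hc : 2 ≤ c) {C₀ : ℝ} (hR : RidBd (c ^ 2) (1 / (4 * c)) C₀) (hN : C₀ ≤ N)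
    (hd : 4 * N + 2 ≤ d)
    (hg : ∀ X B, ∃ p, B < p ∧ p.Prime ∧
      ∀ a, 0 < a → a ≤ X → (∃ y : ZMod p, y ^ k = (a : ZMod p)) → d ∣ Wt (wP (c ^ 2)) a) :
    ((c ^ d - 1 : ℕ) : ℕ∞) ≤ Lam k 2 := by
  refine le_limsup_of_frequently_le ?_ (by isBoundedDefault)
  intro hev
  rw [eventually_inf_principal, eventually_atTop] at hev
  obtain ⟨B, hB⟩ := hev
  obtain ⟨p, hp1, hp2, hp3⟩ := hg (c ^ d) B
  refine hB p hp1.le hp2 ?_
  unfold r
  refine le_iInf₂ fun a ha => ?_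
  by_contra hlt
  have hac : a < c ^ d - 1 := by
    rw [not_le] at hlt
    exact_mod_cast hlt
  have h0 : d ∣ Wt (wP (c ^ 2)) a := by
    have := hp3 (a + 0) (by omega) (by omega) (res_pow dvd_rfl (ha.2 0 (by norm_num)))
    simpa using this
  have h1 : d ∣ Wt (wP (c ^ 2)) (a + 1) :=
    hp3 (a + 1) (by omega) (by omega) (res_pow dvd_rfl (ha.2 1 (by norm_num)))
  have ha0 := ha.1
  by_cases he : 2 ∣ a
  · have := pair_super c d a (a + 1) N hc hR hN hd he ha0 (by omega) (Or.inr rfl) h0 h1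
    omega
  · have := pair_super c d (a + 1) a N hc hR hN hd (by omega) (by omega) ha0 (Or.inl rfl) h1 h0
    omega

end Pool.Agent.H552Res
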