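import Pool.Agent.TH930.GH.Rid
import Pool.Agent.H552Res.W4

/-!
# Superexponential growth of `Λ(k, 2)`, with the theorem of Ridout
-/

set_option autoImplicit false

namespace Pool.Agent.H552Res

theorem rid_exists (Y : ℕ) {ε : ℝ} (hε : 0 < ε) : ∃ C₀ : ℝ, RidBd Y ε C₀ := by
  classical
  let S1 : Finset ℕ := (Finset.range (Y + 1)).filter (fun q => q.Prime ∧ q ≠ 2)
  let S2 : Finset ℕ := {2}
  obtain ⟨C, hC, h⟩ := Pool.Agent.TH930.GH.ridout_S S1 S2
    (fun ℓ hℓ => (Finset.mem_filter.1 hℓ).2.1)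
    (fun ℓ hℓ => by rw [Finset.mem_singleton.1 hℓ]; exact Nat.prime_two)
    (by
      rw [Finset.disjoint_singleton_right]
      intro h2
      exact (Finset.mem_filter.1 h2).2.2 rfl) hε
  refine ⟨C, ?_⟩
  intro n n1 v hn hs hodd hn1 hv
  obtain ⟨D, hD1, hD2⟩ : ∃ D : ℤ, |D| = 1 ∧ (n1 : ℤ) = n + D := by
    rcases hn1 with h1 | h1
    · exact ⟨1, by norm_num, by rw [h1]; push_cast; ring⟩
    · exact ⟨-1, by norm_num, by rw [h1]; push_cast; ring⟩
  have hn0 : (n : ℤ) ≠ 0 := by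
    have : n ≠ 0 := by omega
    exact_mod_cast this
  have key := h (n : ℤ) ((2 : ℤ) ^ v) hn0 (by positivity)
    (fun ℓ hℓ hd => by
      have h1 : ℓ ∣ n := Int.natCast_dvd_natCast.1 hd
      refine Finset.mem_filter.2 ⟨Finset.mem_range.2 (by have := hs ℓ hℓ h1; omega), hℓ, ?_⟩
      rintro rfl
      exact hodd h1)
    (fun ℓ hℓ hd => by
      have h1 : ℓ ∣ 2 ^ v := by exact_mod_cast hd
      have h2 : ℓ = 2 := (Nat.prime_dvd_prime_iff_eq hℓ Nat.prime_two).1 (hℓ.dvd_of_dvd_pow h1)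
      rw [h2]
      exact Finset.mem_singleton_self 2)
    (n : ℤ) D hn0 (by intro h0; rw [h0] at hD1; norm_num at hD1)
    (by rw [hD1]; have : (1 : ℤ) < n := by exact_mod_cast hn
        rw [abs_of_pos (by linarith)]; exact this)
    dvd_rfl (by rw [← hD2]; exact_mod_cast hv)
  have hD3 : |(D : ℝ)| = 1 := by exact_mod_cast hD1
  rw [hD3, mul_one] at key
  have hnpos : (0 : ℝ) < n := by
    have : 0 < n := by omega
    exact_mod_cast this
  have e1 : |((n : ℤ) : ℝ)| = n := by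
    rw [Int.cast_natCast, abs_of_pos hnpos]
  have e2 : |(((2 : ℤ) ^ v : ℤ) : ℝ)| = 2 ^ v := by
    push_cast
    rw [abs_of_pos (by positivity)]
  rw [e1, e2, Real.rpow_add hnpos, Real.rpow_one] at key
  have e3 : (n : ℝ) * (2 : ℝ) ^ v ≤ (n : ℝ) * (C * (n : ℝ) ^ ε) := by linarith
  exact le_of_mul_le_mul_left e3 hnpos

/-- `Λ(k, 2)` grows faster than every exponential -/
theorem pair_growth (C : ℕ) : ∃ k₀ : ℕ, ∀ k, k₀ ≤ k → ((C ^ k : ℕ) : ℕ∞) ≤ Lam k 2 := by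
  set c : ℕ := (C + 2) ^ 2 with hc
  have hc2 : 2 ≤ c := by
    rw [hc]
    calc 2 ≤ 2 ^ 2 := by norm_num
      _ ≤ (C + 2) ^ 2 := Nat.pow_le_pow_left (by omega) 2
  have hcpos : (0 : ℝ) < c := by positivity
  obtain ⟨C₀, hR⟩ := rid_exists (c ^ 2) (ε := 1 / (4 * c)) (by positivity)
  obtain ⟨N, hN⟩ := exists_nat_ge C₀
  have hfin : ∀ k d : ℕ, 4 * N + 2 ≤ d → k ≤ 2 * d → C ^ k ≤ c ^ d - 1 := by
    intro k d hd hkd
    have h1 : c ^ d = (C + 2) ^ (2 * d) := by rw [hc, pow_mul]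
    have h2 : (C + 2) ^ k ≤ (C + 2) ^ (2 * d) := Nat.pow_le_pow_right (by omega) hkd
    rcases Nat.eq_zero_or_pos k with hk0 | hk0
    · rw [hk0, pow_zero]
      have h3 : 1 < c ^ d := Nat.one_lt_pow (by omega) (by omega)
      omega
    · have h3 : C ^ k < (C + 2) ^ k := Nat.pow_lt_pow_left (by omega) (by omega)
      omega
  refine ⟨2 * (4 * N + 2), fun k hk => ?_⟩
  rcases Nat.even_or_odd k with he | ho
  · obtain ⟨m, rfl⟩ := even_iff_exists_two_mul.1 he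
    refine le_trans ?_ (lam_super2 c (2 * m) m N hc2 hR hN (by omega)
      (fun X B => goodW2 m (by omega) (wP (c ^ 2)) X B))
    exact_mod_cast hfin (2 * m) m (by omega) le_rfl
  · refine le_trans ?_ (lam_super2 c k k N hc2 hR hN (by omega)
      (fun X B => goodW k (by omega) (by rw [← even_iff_two_dvd]; exact Nat.not_even_iff_odd.2 ho) (wP (c ^ 2)) X B))
    exact_mod_cast hfin k k (by omega) (by omega)

end Pool.Agent.H552Res
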